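import Mathlib

set_option autoImplicit false

namespace Pool.Agent.H883Z.Cay

open Finset Pointwise Module

variable {G : Type} [AddCommGroup G]

lemma addself [Module (ZMod 2) G] (x : G) : x + x = 0 := by
  have : (2 : ZMod 2) • x = 0 := by rw [show (2 : ZMod 2) = 0 from rfl, zero_smul]
  rwa [two_smul] at this

lemma add_add_self [Module (ZMod 2) G] (x y : G) : x + y + y = x := by
  rw [add_assoc, addself, add_zero]

lemma add_eq_zero_iff2 [Module (ZMod 2) G] (x y : G) : x + y = 0 ↔ x = y := by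
  constructor
  · intro h
    have := add_add_self x y
    rw [h, zero_add] at this
    exact this.symm
  · rintro rfl
    exact addself x

lemma card_supersets {α : Type} [Fintype α] [DecidableEq α] (S : Finset α) :
    #(univ.filter (fun A : Finset α => S ⊆ A)) = 2 ^ (Fintype.card α - #S) := by
  have : univ.filter (fun A : Finset α => S ⊆ A) = Icc S univ := by
    ext A
    simp
  rw [this, card_Icc_finset (subset_univ S), card_univ]

/-- the sets `A` that contain all nonzero elements of some member of the family -/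
def bad [Fintype G] [DecidableEq G] (F : Finset (Finset G)) : Finset (Finset G) :=
  univ.filter (fun A => ∃ S ∈ F, S.erase 0 ⊆ A)

lemma card_bad_le [Fintype G] [DecidableEq G] (F : Finset (Finset G)) (s : ℕ)
    (hs : ∀ S ∈ F, s ≤ #S) : #(bad F) * 2 ^ s ≤ #F * (2 * 2 ^ Fintype.card G) := by
  have h1 : bad F ⊆ F.biUnion (fun S => univ.filter (fun A : Finset G => S.erase 0 ⊆ A)) := by
    intro A hA
    simp only [bad, mem_filter, mem_univ, true_and] at hA
    obtain ⟨S, hS, h⟩ := hA
    exact mem_biUnion.2 ⟨S, hS, by simpa using h⟩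
  have h2 := (card_le_card h1).trans card_biUnion_le
  calc #(bad F) * 2 ^ s
      ≤ (∑ S ∈ F, #(univ.filter (fun A : Finset G => S.erase 0 ⊆ A))) * 2 ^ s :=
        Nat.mul_le_mul_right _ h2
    _ = ∑ S ∈ F, #(univ.filter (fun A : Finset G => S.erase 0 ⊆ A)) * 2 ^ s := by
        rw [sum_mul]
    _ ≤ ∑ _S ∈ F, 2 * 2 ^ Fintype.card G := by
        apply sum_le_sum
        intro S hS
        rw [card_supersets, ← pow_add, ← pow_succ']
        apply Nat.pow_le_pow_right (by norm_num)
        have h3 := hs S hS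
        have h4 : #S ≤ #(S.erase 0) + 1 := by
          have := pred_card_le_card_erase (s := S) (a := 0)
          omega
        have h5 : #(S.erase 0) ≤ Fintype.card G := card_le_univ _
        omega
    _ = #F * (2 * 2 ^ Fintype.card G) := by simp

lemma exists_gen [Module (ZMod 2) G] [Finite G] (W : Submodule (ZMod 2) G) (r : ℕ)
    (hr : finrank (ZMod 2) W ≤ r) :
    ∃ v : Fin r → G, ∀ x ∈ W, ∃ a : Fin r → ZMod 2, ∑ j, a j • v j = x := by
  classical
  let b := Module.finBasis (ZMod 2) W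
  let v : Fin r → G := fun j => if h : j.val < finrank (ZMod 2) W then (b ⟨j.val, h⟩ : G) else 0
  refine ⟨v, fun x hx => ?_⟩
  rw [← Submodule.mem_span_range_iff_exists_fun]
  have h1 : (⟨x, hx⟩ : W) ∈ Submodule.span (ZMod 2) (Set.range b) := by
    rw [b.span_eq]; trivial
  have h2 := Submodule.mem_map_of_mem (f := W.subtype) h1
  rw [Submodule.map_span] at h2
  refine Submodule.span_mono ?_ h2
  rintro _ ⟨_, ⟨i, rfl⟩, rfl⟩
  refine ⟨⟨i.val, lt_of_lt_of_le i.isLt hr⟩, ?_⟩
  simp [v]

lemma exists_enum {α : Type} [DecidableEq α] (Y : Finset α) (z : α) (hz : z ∈ Y) (t : ℕ)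
    (ht : #Y ≤ t) : ∃ f : Fin t → α, univ.image f = Y := by
  let e := Y.equivFin
  let f : Fin t → α := fun i => if h : i.val < #Y then (e.symm ⟨i.val, h⟩ : α) else z
  refine ⟨f, ?_⟩
  ext y
  simp only [mem_image, mem_univ, true_and]
  constructor
  · rintro ⟨i, rfl⟩
    by_cases h : i.val < #Y
    · simp [f, h]
    · simp [f, h, hz]
  · intro hy
    refine ⟨⟨(e ⟨y, hy⟩).val, lt_of_lt_of_le (e ⟨y, hy⟩).isLt ht⟩, ?_⟩
    simp [f]

/-- small sets of small rank through the origin -/
noncomputable def fam [Module (ZMod 2) G] [Fintype G] [DecidableEq G] (r t : ℕ) :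
    Finset (Finset G) := by
  classical
  exact univ.filter (fun Y => (0 : G) ∈ Y ∧ #Y ≤ t ∧
    finrank (ZMod 2) (Submodule.span (ZMod 2) (Y : Set G)) ≤ r)

lemma mem_fam [Module (ZMod 2) G] [Fintype G] [DecidableEq G] {r t : ℕ} {Y : Finset G} :
    Y ∈ fam r t ↔ (0 : G) ∈ Y ∧ #Y ≤ t ∧
      finrank (ZMod 2) (Submodule.span (ZMod 2) (Y : Set G)) ≤ r := by
  simp [fam]

lemma card_fam_le [Module (ZMod 2) G] [Fintype G] [DecidableEq G] (r t n : ℕ)
    (hn : Fintype.card G = 2 ^ n) : #(fam (G := G) r t) ≤ 2 ^ (r * (n + t)) := by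
  classical
  let F : (Fin r → G) × (Fin t → Fin r → ZMod 2) → Finset G :=
    fun p => univ.image fun i => ∑ j, p.2 i j • p.1 j
  have h1 : fam (G := G) r t ⊆ univ.image F := by
    intro Y hY
    obtain ⟨h0, ht, hr⟩ := mem_fam.1 hY
    obtain ⟨v, hv⟩ := exists_gen _ r hr
    obtain ⟨f, hf⟩ := exists_enum Y 0 h0 t ht
    have h2 : ∀ i, f i ∈ Submodule.span (ZMod 2) (Y : Set G) := by
      intro i
      apply Submodule.subset_span
      rw [← hf]
      simp
    choose a ha using fun i => hv (f i) (h2 i)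
    refine mem_image.2 ⟨(v, a), mem_univ _, ?_⟩
    simp only [F, ha]
    exact hf
  refine (card_le_card h1).trans (card_image_le.trans ?_)
  simp only [card_univ, Fintype.card_prod, Fintype.card_fun, Fintype.card_fin, hn, ZMod.card]
  rw [← pow_mul, ← pow_mul, ← pow_add]
  apply le_of_eq
  congr 1
  ring

lemma prod_lower (m : ℕ) : 2 ^ (m * m) ≤ 4 * ∏ i : Fin m, (2 ^ m - 2 ^ i.val) := by
  have key : ∀ m : ℕ, (1 / 4 + 1 / 2 ^ (m + 2) : ℝ) ≤
      ∏ i ∈ range (m + 1), (1 - 1 / 2 ^ (i + 1) : ℝ) := by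
    intro m
    induction m with
    | zero => norm_num
    | succ m ih =>
      rw [prod_range_succ]
      have hp : (0 : ℝ) < 2 ^ m := by positivity
      have hp1 : (1 : ℝ) ≤ 2 ^ m := one_le_pow₀ (by norm_num)
      have h1 : (0 : ℝ) ≤ 1 - 1 / 2 ^ (m + 1 + 1) := by
        rw [sub_nonneg, div_le_one (by positivity)]
        exact one_le_pow₀ (by norm_num)
      refine le_trans ?_ (mul_le_mul_of_nonneg_right ih h1)
      have e1 : (2 : ℝ) ^ (m + 1 + 2) = 8 * 2 ^ m := by ring
      have e2 : (2 : ℝ) ^ (m + 2) = 4 * 2 ^ m := by ring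
      have e3 : (2 : ℝ) ^ (m + 1 + 1) = 4 * 2 ^ m := by ring
      rw [e1, e2]
      set x : ℝ := 2 ^ m
      have : (1 / 4 + 1 / (4 * x)) * (1 - 1 / (4 * x)) - (1 / 4 + 1 / (8 * x))
          = (x - 1) / (16 * x ^ 2) := by
        field_simp
        ring
      have h2 : 0 ≤ (x - 1) / (16 * x ^ 2) := by
        apply div_nonneg
        · linarith
        · positivity
      linarith
  rcases m with _ | m
  · simp
  have h1 := key m
  have h2 : (1 / 4 : ℝ) ≤ ∏ i ∈ range (m + 1), (1 - 1 / 2 ^ (i + 1) : ℝ) := by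
    refine le_trans ?_ h1
    have : (0 : ℝ) ≤ 1 / 2 ^ (m + 2) := by positivity
    linarith
  have h3 : ((∏ i : Fin (m + 1), (2 ^ (m + 1) - 2 ^ i.val) : ℕ) : ℝ)
      = 2 ^ ((m + 1) * (m + 1)) * ∏ i ∈ range (m + 1), (1 - 1 / 2 ^ (i + 1) : ℝ) := by
    rw [Fin.prod_univ_eq_prod_range (fun i => 2 ^ (m + 1) - 2 ^ i) (m + 1), ← prod_range_reflect,
      Nat.cast_prod, pow_mul]
    have : ((2 : ℝ) ^ (m + 1)) ^ (m + 1) = ∏ _i ∈ range (m + 1), (2 : ℝ) ^ (m + 1) := by simp
    rw [this, ← prod_mul_distrib]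
    apply prod_congr rfl
    intro i hi
    rw [mem_range] at hi
    rw [Nat.cast_sub (Nat.pow_le_pow_right (by norm_num) (by omega))]
    push_cast
    have e : m + 1 = (m - i) + (i + 1) := by omega
    have e' : (2 : ℝ) ^ (m + 1) = 2 ^ (m - i) * 2 ^ (i + 1) := by rw [← pow_add, ← e]
    rw [mul_sub, mul_one]
    congr 1
    rw [e']
    field_simp
  have h4 : ((2 ^ ((m + 1) * (m + 1)) : ℕ) : ℝ) ≤
      ((4 * ∏ i : Fin (m + 1), (2 ^ (m + 1) - 2 ^ i.val) : ℕ) : ℝ) := by
    rw [Nat.cast_mul, h3]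
    push_cast
    have : (0 : ℝ) < 2 ^ ((m + 1) * (m + 1)) := by positivity
    nlinarith
  exact_mod_cast h4

/-- the subspaces of rank `m`, as finite sets -/
noncomputable def subsp [Module (ZMod 2) G] [Fintype G] [DecidableEq G] (m : ℕ) :
    Finset (Finset G) := by
  classical
  exact univ.filter (fun H => ∃ W : Submodule (ZMod 2) G, finrank (ZMod 2) W = m ∧
    ∀ x, x ∈ H ↔ x ∈ W)

lemma mem_subsp [Module (ZMod 2) G] [Fintype G] [DecidableEq G] {m : ℕ} {H : Finset G} :
    H ∈ subsp m ↔ ∃ W : Submodule (ZMod 2) G, finrank (ZMod 2) W = m ∧ ∀ x, x ∈ H ↔ x ∈ W := by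
  simp [subsp]

lemma card_subsp_le [Module (ZMod 2) G] [Fintype G] [DecidableEq G] (m n : ℕ)
    (hn : Fintype.card G = 2 ^ n) : #(subsp (G := G) m) * 2 ^ (m * m) ≤ 4 * 2 ^ (n * m) := by
  classical
  have h1 : #(subsp (G := G) m) * (∏ i : Fin m, (2 ^ m - 2 ^ i.val)) ≤
      #(univ : Finset (Fin m → G)) * 1 := by
    apply card_mul_le_card_mul
      (fun (H : Finset G) (v : Fin m → G) =>
        ∀ x, x ∈ H ↔ x ∈ Submodule.span (ZMod 2) (Set.range v))
    · intro H hH
      obtain ⟨W, hW, hx⟩ := mem_subsp.1 hH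
      have h2 := card_linearIndependent (K := ZMod 2) (V := W) (k := m) hW.ge
      rw [hW, ZMod.card] at h2
      rw [← h2, Nat.card_eq_fintype_card, ← card_univ]
      apply card_le_card_of_injOn (fun s => fun i => ((s.1 i : W) : G))
      · intro s _
        simp only [coe_filter, bipartiteAbove, mem_univ, true_and, Set.mem_setOf_eq]
        intro x
        rw [hx]
        have h3 : Submodule.span (ZMod 2) (Set.range s.1) = ⊤ := by
          apply s.2.span_eq_top_of_card_eq_finrank'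
          simp [hW]
        have h4 : Submodule.span (ZMod 2) (Set.range fun i => ((s.1 i : W) : G)) = W := by
          have := congrArg (Submodule.map W.subtype) h3
          rw [Submodule.map_span, Submodule.map_top, Submodule.range_subtype,
            ← Set.range_comp] at this
          exact this
        rw [h4]
      · intro s _ s' _ h
        apply Subtype.ext
        funext i
        exact Subtype.ext (congrFun h i)
    · intro v _
      apply card_le_one.2
      intro H hH H' hH'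
      simp only [bipartiteBelow, mem_filter] at hH hH'
      ext x
      rw [hH.2, hH'.2]
  simp only [card_univ, Fintype.card_fun, Fintype.card_fin, hn, mul_one] at h1
  have h2 := prod_lower m
  calc #(subsp (G := G) m) * 2 ^ (m * m)
      ≤ #(subsp (G := G) m) * (4 * ∏ i : Fin m, (2 ^ m - 2 ^ i.val)) := Nat.mul_le_mul_left _ h2
    _ = 4 * (#(subsp (G := G) m) * ∏ i : Fin m, (2 ^ m - 2 ^ i.val)) := by ring
    _ ≤ 4 * (2 ^ n) ^ m := Nat.mul_le_mul_left _ h1
    _ = 4 * 2 ^ (n * m) := by rw [← pow_mul]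

lemma choose_le (L k : ℕ) : (16 * L).choose k ≤ 2 ^ (L + 5 * k) := by
  by_cases hk : 16 * L < k
  · rw [Nat.choose_eq_zero_of_lt hk]
    positivity
  push Not at hk
  have h1 : ((1 / 32 : ℝ)) ^ k * ((16 * L).choose k : ℝ) ≤ (1 / 32 + 1) ^ (16 * L) := by
    rw [add_pow]
    have := single_le_sum (s := range (16 * L + 1))
      (f := fun i => (1 / 32 : ℝ) ^ i * 1 ^ (16 * L - i) * ((16 * L).choose i : ℝ))
      (fun i _ => by positivity) (mem_range.2 (Nat.lt_succ_of_le hk))
    simpa using this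
  have h2 : (1 / 32 + 1 : ℝ) ^ (16 * L) ≤ 2 ^ L := by
    rw [pow_mul]
    apply pow_le_pow_left₀ (by positivity)
    norm_num
  have h3 : (((16 * L).choose k : ℕ) : ℝ) ≤ ((2 ^ (L + 5 * k) : ℕ) : ℝ) := by
    push_cast
    have e : (2 : ℝ) ^ (L + 5 * k) = 2 ^ L * 32 ^ k := by
      rw [pow_add, pow_mul]; norm_num
    have e2 : (1 / 32 : ℝ) ^ k * 32 ^ k = 1 := by
      rw [← mul_pow]; norm_num
    rw [e]
    have hp : (0 : ℝ) < 32 ^ k := by positivity
    calc (((16 * L).choose k : ℕ) : ℝ)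
        = ((1 / 32 : ℝ) ^ k * ((16 * L).choose k : ℝ)) * 32 ^ k := by
          rw [mul_right_comm, e2, one_mul]
      _ ≤ 2 ^ L * 32 ^ k := mul_le_mul_of_nonneg_right (h1.trans h2) hp.le
  exact_mod_cast h3

end Pool.Agent.H883Z.Cay
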