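import Pool.Agent.H883Z.CayStruct

set_option autoImplicit false

namespace Pool.Agent.H883Z.Cay

open Finset Pointwise Module

lemma card_disjoint {α : Type} [Fintype α] [DecidableEq α] (S : Finset α) :
    #(univ.filter (fun A : Finset α => Disjoint S A)) = 2 ^ (Fintype.card α - #S) := by
  have : univ.filter (fun A : Finset α => Disjoint S A) = powerset Sᶜ := by
    ext A
    simp only [mem_filter, mem_univ, true_and, mem_powerset]
    rw [subset_compl_iff_disjoint_left]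
  rw [this, card_powerset, card_compl]

lemma two_pow_ratio (j t : ℕ) (hj : 1 ≤ j) : 2 ^ j * (j + t) ≤ j * 2 ^ (j + t) := by
  induction t with
  | zero => simp [mul_comm]
  | succ t ih =>
    have h1 : j + (t + 1) ≤ 2 * (j + t) := by omega
    calc 2 ^ j * (j + (t + 1)) ≤ 2 ^ j * (2 * (j + t)) := Nat.mul_le_mul_left _ h1
      _ = 2 * (2 ^ j * (j + t)) := by ring
      _ ≤ 2 * (j * 2 ^ (j + t)) := Nat.mul_le_mul_left _ ih
      _ = j * 2 ^ (j + (t + 1)) := by ring

variable {U V : Type} [AddCommGroup U] [Module (ZMod 2) U] [Fintype U] [DecidableEq U]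
  [AddCommGroup V] [Module (ZMod 2) V] [Fintype V] [DecidableEq V]

omit [DecidableEq U] [DecidableEq V] in
lemma natCard_hom {W : Type} [AddCommGroup W] [Module (ZMod 2) W] [Finite W] :
    Nat.card (W →ₗ[ZMod 2] V) = 2 ^ (finrank (ZMod 2) W * finrank (ZMod 2) V) := by
  have := Module.natCard_eq_pow_finrank (K := ZMod 2) (V := W →ₗ[ZMod 2] V)
  rw [this, Nat.card_zmod, Module.finrank_linearMap]

omit [DecidableEq U] in
lemma card_univ_eq : Fintype.card U = 2 ^ finrank (ZMod 2) U := by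
  have := Module.card_eq_pow_finrank (K := ZMod 2) (V := U)
  rwa [ZMod.card] at this

variable [Fintype (U →ₗ[ZMod 2] V)]

omit [DecidableEq V] in
lemma card_ker_le (j : ℕ) :
    #(univ.filter fun θ : U →ₗ[ZMod 2] V => finrank (ZMod 2) (LinearMap.ker θ) = j) ≤
      4 * 2 ^ (finrank (ZMod 2) U * j) *
        2 ^ ((finrank (ZMod 2) U - j) * finrank (ZMod 2) V) := by
  classical
  have h1 : (univ.filter fun θ : U →ₗ[ZMod 2] V => finrank (ZMod 2) (LinearMap.ker θ) = j) ⊆
      (subsp (G := U) j).biUnion fun H => univ.filter fun θ => ∀ x ∈ H, θ x = 0 := by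
    intro θ hθ
    refine mem_biUnion.2 ⟨univ.filter fun x => x ∈ LinearMap.ker θ,
      mem_subsp.2 ⟨LinearMap.ker θ, (mem_filter.1 hθ).2, by simp⟩, by simp⟩
  refine (card_le_card h1).trans ((card_biUnion_le_card_mul _ _
    (2 ^ ((finrank (ZMod 2) U - j) * finrank (ZMod 2) V)) ?_).trans ?_)
  · intro H hH
    obtain ⟨W, hW, hx⟩ := mem_subsp.1 hH
    have h2 : finrank (ZMod 2) (U ⧸ W) = finrank (ZMod 2) U - j := by
      have := W.finrank_quotient_add_finrank
      omega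
    rw [← h2, ← natCard_hom, ← Fintype.card_subtype, ← Nat.card_eq_fintype_card]
    have : Finite (U ⧸ W →ₗ[ZMod 2] V) := Module.finite_of_finite (ZMod 2)
    apply Nat.card_le_card_of_injective
      (fun θ : {θ : U →ₗ[ZMod 2] V // ∀ x ∈ H, θ x = 0} =>
        W.liftQ θ.1 (fun x hx' => θ.2 x ((hx x).2 hx')))
    intro θ θ' h
    apply Subtype.ext
    have := congrArg (fun f => LinearMap.comp f W.mkQ) h
    simpa only [Submodule.liftQ_mkQ] using this
  · apply Nat.mul_le_mul_right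
    have h2 := card_subsp_le (G := U) j _ card_univ_eq
    exact le_trans (Nat.le_mul_of_pos_right _ (by positivity)) h2

omit [DecidableEq V] in
lemma sum_ker_le (m e : ℕ) (hU : finrank (ZMod 2) U = m) (hV : finrank (ZMod 2) V = e)
    (hme : m * e + 4 = 2 ^ m) (hm : 8 ≤ m) (he : 9 * m ≤ e) :
    ∑ θ : U →ₗ[ZMod 2] V, 2 ^ 2 ^ finrank (ZMod 2) (LinearMap.ker θ) ≤ 19 * 2 ^ (m * e) := by
  classical
  have hM : Fintype.card (U →ₗ[ZMod 2] V) = 2 ^ (m * e) := by
    rw [← Nat.card_eq_fintype_card, natCard_hom, hU, hV]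
  rw [← sum_fiberwise_of_maps_to (t := range (m + 1))
    (g := fun θ : U →ₗ[ZMod 2] V => finrank (ZMod 2) (LinearMap.ker θ)) (by
      intro θ _
      rw [mem_range, ← hU]
      exact Nat.lt_succ_of_le (Submodule.finrank_le _))]
  have h1 : ∀ j, ∑ θ ∈ univ.filter (fun θ : U →ₗ[ZMod 2] V =>
      finrank (ZMod 2) (LinearMap.ker θ) = j), 2 ^ 2 ^ finrank (ZMod 2) (LinearMap.ker θ) =
      #(univ.filter fun θ : U →ₗ[ZMod 2] V => finrank (ZMod 2) (LinearMap.ker θ) = j) *
        2 ^ 2 ^ j := by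
    intro j
    rw [sum_congr rfl (g := fun _ => 2 ^ 2 ^ j)]
    · simp
    · intro θ hθ
      rw [(mem_filter.1 hθ).2]
  simp only [h1]
  obtain ⟨m', rfl⟩ : ∃ m', m = m' + 1 := ⟨m - 1, by omega⟩
  rw [sum_range_succ, sum_range_succ']
  have h2 : #(univ.filter fun θ : U →ₗ[ZMod 2] V =>
      finrank (ZMod 2) (LinearMap.ker θ) = m' + 1) ≤ 1 := by
    apply card_le_one.2
    have : ∀ θ ∈ (univ.filter fun θ : U →ₗ[ZMod 2] V =>
        finrank (ZMod 2) (LinearMap.ker θ) = m' + 1), θ = 0 := by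
      intro θ hθ
      rw [← LinearMap.ker_eq_top]
      apply Submodule.eq_top_of_finrank_eq
      rw [(mem_filter.1 hθ).2, hU]
    intro θ hθ θ' hθ'
    rw [this θ hθ, this θ' hθ']
  have h3 : #(univ.filter fun θ : U →ₗ[ZMod 2] V =>
      finrank (ZMod 2) (LinearMap.ker θ) = 0) ≤ 2 ^ ((m' + 1) * e) := by
    rw [← hM]
    exact card_le_univ _
  have h4 : ∑ j ∈ range m', #(univ.filter fun θ : U →ₗ[ZMod 2] V =>
      finrank (ZMod 2) (LinearMap.ker θ) = j + 1) * 2 ^ 2 ^ (j + 1) ≤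
      2 ^ ((m' + 1) * e) := by
    have h5 : ∀ j ∈ range m', #(univ.filter fun θ : U →ₗ[ZMod 2] V =>
        finrank (ZMod 2) (LinearMap.ker θ) = j + 1) * 2 ^ 2 ^ (j + 1) ≤
        2 ^ ((m' + 1) * e - (m' + 1)) := by
      intro j hj
      rw [mem_range] at hj
      refine (Nat.mul_le_mul_right _ (card_ker_le (j + 1))).trans ?_
      rw [hU, hV, show (4 : ℕ) = 2 ^ 2 from rfl, ← pow_add, ← pow_add, ← pow_add]
      apply Nat.pow_le_pow_right (by norm_num)
      obtain ⟨t, rfl⟩ : ∃ t, m' = j + 1 + t := ⟨m' - (j + 1), by omega⟩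
      have h6 := two_pow_ratio (j + 1) t (by omega)
      have e1 : j + 1 + t + 1 - (j + 1) = t + 1 := by omega
      rw [e1]
      set i := j + 1 with hi
      set x := 2 ^ i
      have e2 : 2 ^ (i + t + 1) = 2 * 2 ^ (i + t) := by ring
      have h7 : 3 * ((i + t + 1) * e + 4) ≤ 4 * e * (i + t) := by nlinarith
      have h8 : 3 * x * (2 * (i + t)) ≤ 2 * (i * e) * (2 * (i + t)) := by
        calc 3 * x * (2 * (i + t)) = 6 * (x * (i + t)) := by ring
          _ ≤ 6 * (i * 2 ^ (i + t)) := Nat.mul_le_mul_left _ h6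
          _ = i * (3 * (2 * 2 ^ (i + t))) := by ring
          _ = i * (3 * ((i + t + 1) * e + 4)) := by rw [hme, e2]
          _ ≤ i * (4 * e * (i + t)) := Nat.mul_le_mul_left _ h7
          _ = 2 * (i * e) * (2 * (i + t)) := by ring
      have h9 : 3 * x ≤ 2 * (i * e) := Nat.le_of_mul_le_mul_right h8 (by omega)
      have h10 : 9 * ((i + t + 1) * i) ≤ i * e := by nlinarith
      have h11 : i + t + 1 ≤ (i + t + 1) * i := Nat.le_mul_of_pos_right _ (by omega)
      have e3 : (i + t + 1) * e = i * e + (t + 1) * e := by ring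
      omega
    refine (sum_le_card_nsmul _ _ _ h5).trans ?_
    rw [card_range, smul_eq_mul]
    have h6 : m' + 1 ≤ (m' + 1) * e := Nat.le_mul_of_pos_right _ (by omega)
    calc m' * 2 ^ ((m' + 1) * e - (m' + 1)) ≤ 2 ^ (m' + 1) * 2 ^ ((m' + 1) * e - (m' + 1)) :=
          Nat.mul_le_mul_right _ ((Nat.le_succ _).trans Nat.lt_two_pow_self.le)
      _ = 2 ^ ((m' + 1) * e) := by rw [← pow_add]; congr 1; omega
  have h5 : 2 ^ 2 ^ (m' + 1) = 16 * 2 ^ ((m' + 1) * e) := by
    rw [← hme, pow_add]; ring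
  have h6 := Nat.mul_le_mul_right (2 ^ 2 ^ (m' + 1)) h2
  have h7 := Nat.mul_le_mul_right (2 ^ 2 ^ 0) h3
  norm_num at h7
  simp only [pow_zero, pow_one]
  omega

/-- nonzero points on the graph of a linear map -/
def gr (φ : U →ₗ[ZMod 2] V) : Finset (U × V) := (univ.erase 0).image fun u => (u, φ u)

omit [Fintype V] [Fintype (U →ₗ[ZMod 2] V)] in
lemma card_gr (φ : U →ₗ[ZMod 2] V) : #(gr φ) + 1 = Fintype.card U := by
  rw [gr, card_image_of_injective _ (fun u u' h => congrArg Prod.fst h),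
    card_erase_add_one (mem_univ _), card_univ]

omit [Fintype V] [Fintype (U →ₗ[ZMod 2] V)] in
lemma card_gr_inter (φ ψ : U →ₗ[ZMod 2] V) :
    #(gr φ ∩ gr ψ) + 1 ≤ 2 ^ finrank (ZMod 2) (LinearMap.ker (φ - ψ)) := by
  classical
  rw [← card_submodule, ← card_erase_add_one (a := (0 : U)) (by simp)]
  apply Nat.add_le_add_right
  apply card_le_card_of_injOn Prod.fst
  · intro z hz
    simp only [gr, coe_inter, coe_image, Set.mem_inter_iff, Set.mem_image, mem_coe,
      mem_erase] at hz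
    obtain ⟨⟨u, hu, rfl⟩, ⟨u', _, h⟩⟩ := hz
    simp only [Prod.mk.injEq] at h
    obtain ⟨rfl, h⟩ := h
    simp [hu.1, h]
  · intro z hz z' hz' h
    simp only [gr, coe_inter, coe_image, Set.mem_inter_iff, Set.mem_image] at hz hz'
    obtain ⟨⟨u, _, rfl⟩, _⟩ := hz
    obtain ⟨⟨u', _, rfl⟩, _⟩ := hz'
    simp only at h
    rw [h]

/-- sets that avoid the nonzero points of some graph -/
def good (U V : Type) [AddCommGroup U] [Module (ZMod 2) U] [Fintype U] [DecidableEq U]
    [AddCommGroup V] [Module (ZMod 2) V] [Fintype V] [DecidableEq V]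
    [Fintype (U →ₗ[ZMod 2] V)] : Finset (Finset (U × V)) :=
  univ.filter fun A => ∃ φ : U →ₗ[ZMod 2] V, Disjoint (gr φ) A

theorem lower (m e : ℕ) (hU : finrank (ZMod 2) U = m) (hV : finrank (ZMod 2) V = e)
    (hme : m * e + 4 = 2 ^ m) (hm : 8 ≤ m) (he : 9 * m ≤ e) :
    2 ^ Fintype.card (U × V) ≤ 10 * #(good U V) := by
  classical
  set N := Fintype.card (U × V) with hN
  set M := 2 ^ (m * e) with hMdef
  set h := 2 ^ m with hh
  have hM : Fintype.card (U →ₗ[ZMod 2] V) = M := by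
    rw [← Nat.card_eq_fintype_card, natCard_hom, hU, hV]
  have hcU : Fintype.card U = h := by rw [card_univ_eq, hU]
  let Z : Finset (U × V) → ℕ := fun A => ∑ φ : U →ₗ[ZMod 2] V, if Disjoint (gr φ) A then 1 else 0
  have h1 : (∑ A, Z A) * 2 ^ h = M * (2 * 2 ^ N) := by
    simp only [Z]
    rw [sum_comm, sum_mul, sum_congr rfl (g := fun _ => 2 * 2 ^ N)]
    · simp [hM]
    · intro φ _
      rw [← card_filter, card_disjoint, ← pow_add, ← pow_succ']
      congr 1
      have h2 := card_gr φ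
      have h3 : #(gr φ) ≤ N := card_le_univ _
      omega
  have h2 : (∑ A, Z A ^ 2) * 2 ^ (2 * h) ≤ M * (2 * 2 ^ N) * (19 * M) := by
    have eZ : ∀ A, Z A ^ 2 = ∑ φ : U →ₗ[ZMod 2] V, ∑ ψ : U →ₗ[ZMod 2] V,
        if Disjoint (gr φ ∪ gr ψ) A then 1 else 0 := by
      intro A
      simp only [Z]
      rw [sq, sum_mul_sum]
      apply sum_congr rfl
      intro φ _
      apply sum_congr rfl
      intro ψ _
      by_cases a : Disjoint (gr φ) A <;> by_cases b : Disjoint (gr ψ) A <;>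
        simp [a, b, disjoint_union_left]
    simp only [eZ]
    rw [sum_comm, sum_mul]
    have h3 : ∀ φ : U →ₗ[ZMod 2] V, (∑ A : Finset (U × V), ∑ ψ : U →ₗ[ZMod 2] V,
        if Disjoint (gr φ ∪ gr ψ) A then 1 else 0) * 2 ^ (2 * h) ≤ (2 * 2 ^ N) * (19 * M) := by
      intro φ
      rw [sum_comm, sum_mul]
      have h4 := sum_ker_le (U := U) (V := V) m e hU hV hme hm he
      rw [← Equiv.sum_comp (Equiv.subLeft φ)] at h4
      refine le_trans ?_ (Nat.mul_le_mul_left _ h4)
      rw [mul_sum]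
      apply sum_le_sum
      intro ψ _
      rw [← card_filter, card_disjoint, ← pow_add, ← pow_succ' 2 N, ← pow_add]
      apply Nat.pow_le_pow_right (by norm_num)
      have h5 := card_gr φ
      have h6 := card_gr ψ
      have h7 := card_gr_inter φ ψ
      have h8 := card_union_add_card_inter (gr φ) (gr ψ)
      have h9 : #(gr φ ∪ gr ψ) ≤ N := card_le_univ _
      have h10 : (Equiv.subLeft φ) ψ = φ - ψ := rfl
      rw [h10]
      omega
    refine (sum_le_card_nsmul _ _ _ fun φ _ => h3 φ).trans ?_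
    rw [card_univ, hM, smul_eq_mul, mul_assoc M]
  have h3 : ∑ A, Z A = ∑ A ∈ good U V, Z A := by
    symm
    apply sum_subset (subset_univ _)
    intro A _ hA
    simp only [good, mem_filter, mem_univ, true_and, not_exists] at hA
    simp [Z, hA]
  have h4 : (∑ A ∈ good U V, Z A) ^ 2 ≤ #(good U V) * ∑ A ∈ good U V, Z A ^ 2 :=
    sq_sum_le_card_mul_sum_sq
  have h5 : ∑ A ∈ good U V, Z A ^ 2 ≤ ∑ A, Z A ^ 2 := sum_le_sum_of_subset (subset_univ _)
  have h6 : (2 * 2 ^ N) * (M * (2 * 2 ^ N) * M) ≤ (19 * #(good U V)) * (M * (2 * 2 ^ N) * M) := by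
    calc (2 * 2 ^ N) * (M * (2 * 2 ^ N) * M) = (M * (2 * 2 ^ N)) ^ 2 := by ring
      _ = (∑ A, Z A) ^ 2 * 2 ^ (2 * h) := by rw [← h1]; ring
      _ ≤ (#(good U V) * ∑ A, Z A ^ 2) * 2 ^ (2 * h) := by
          apply Nat.mul_le_mul_right
          rw [h3]
          exact h4.trans (Nat.mul_le_mul_left _ h5)
      _ = #(good U V) * ((∑ A, Z A ^ 2) * 2 ^ (2 * h)) := by ring
      _ ≤ #(good U V) * (M * (2 * 2 ^ N) * (19 * M)) := Nat.mul_le_mul_left _ h2
      _ = (19 * #(good U V)) * (M * (2 * 2 ^ N) * M) := by ring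
  have h7 := Nat.le_of_mul_le_mul_right h6 (by positivity)
  omega

end Pool.Agent.H883Z.Cay
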