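import Pool.Agent.H883Z.CayUpper
import Pool.Agent.H883Z.CayLower

set_option autoImplicit false

namespace Pool.Agent.H883Z.Cay

open Finset Pointwise Module

lemma cube_le (q : ℕ) (hq : 10 ≤ q) : q ^ 3 ≤ 2 ^ q := by
  induction q, hq using Nat.le_induction with
  | base => norm_num
  | succ q hq ih =>
    have h1 : (q + 1) ^ 3 ≤ 2 * q ^ 3 := by
      have e : (q + 1) ^ 3 = q ^ 3 + (3 * q ^ 2 + 3 * q + 1) := by ring
      have h2 : 10 * q ^ 2 ≤ q ^ 3 := by
        calc 10 * q ^ 2 ≤ q * q ^ 2 := Nat.mul_le_mul_right _ hq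
          _ = q ^ 3 := by ring
      nlinarith
    rw [pow_succ 2 q]
    omega

lemma exists_e (q : ℕ) (hq : q.Prime) (h3 : 3 ≤ q) : ∃ e, 2 * q * e + 4 = 2 ^ (2 * q) := by
  have : Fact q.Prime := ⟨hq⟩
  have h4 : 4 ≤ 2 ^ (2 * q) := by
    calc 4 = 2 ^ 2 := rfl
      _ ≤ 2 ^ (2 * q) := Nat.pow_le_pow_right (by norm_num) (by omega)
  have h1 : q ∣ 2 ^ (2 * q) - 4 := by
    rw [← ZMod.natCast_eq_zero_iff, Nat.cast_sub h4]
    push_cast
    rw [mul_comm, pow_mul, ZMod.pow_card]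
    norm_num
  have h2 : 2 ∣ 2 ^ (2 * q) - 4 :=
    Nat.dvd_sub (dvd_pow_self 2 (by omega)) (by norm_num)
  have h5 : Nat.Coprime 2 q := (Nat.coprime_primes Nat.prime_two hq).2 (by omega)
  obtain ⟨e, he⟩ := h5.mul_dvd_of_dvd_of_dvd h2 h1
  exact ⟨e, by omega⟩

section graph
variable {G : Type} [AddCommGroup G] [Module (ZMod 2) G] [DecidableEq G] [Fintype G]

lemma cliqueNum_lt (A : Finset G) (k : ℕ) (hk : 0 < k) (hA : A ∉ cliq G k) :
    (SimpleGraph.fromRel (fun x y : G => x + y ∈ A)).cliqueNum < k := by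
  by_contra hcon
  push Not at hcon
  obtain ⟨s, hs⟩ := (SimpleGraph.fromRel (fun x y : G => x + y ∈ A)).exists_isNClique_cliqueNum
  obtain ⟨t, hts, htk⟩ := exists_subset_card_eq (s := s) (n := k) (by rw [hs.card_eq]; exact hcon)
  obtain ⟨x0, hx0⟩ : t.Nonempty := card_pos.1 (by omega)
  apply hA
  simp only [cliq, mem_filter, mem_univ, true_and]
  refine ⟨t.image fun x => x + x0, mem_image.2 ⟨x0, hx0, addself x0⟩, ?_, ?_⟩
  · rw [card_image_of_injective _ (add_left_injective x0), htk]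
  · intro z hz
    rw [mem_erase] at hz
    obtain ⟨_, ha, _, hb, rfl⟩ := mem_add.1 hz.2
    obtain ⟨x, hx, rfl⟩ := mem_image.1 ha
    obtain ⟨y, hy, rfl⟩ := mem_image.1 hb
    have e : x + x0 + (y + x0) = x + y := by
      rw [add_add_add_comm, addself, add_zero]
    rw [e] at hz ⊢
    have hxy : x ≠ y := fun h => hz.1 ((add_eq_zero_iff2 x y).2 h)
    have := hs.isClique (hts hx) (hts hy) hxy
    rw [SimpleGraph.fromRel_adj] at this
    rcases this.2 with h | h
    · exact h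
    · rwa [add_comm]

omit [Module (ZMod 2) G] in
lemma cliq_compl_lower (k : ℕ) :
    IsLowerSet (((cliq G k)ᶜ : Finset (Finset G)) : Set (Finset G)) := by
  intro A B hBA hA
  simp only [coe_compl, Set.mem_compl_iff, mem_coe, cliq, mem_filter, mem_univ, true_and] at hA ⊢
  rintro ⟨X, h0, hk, hX⟩
  exact hA ⟨X, h0, hk, hX.trans hBA⟩

end graph

section prod
variable {U V : Type} [AddCommGroup U] [Module (ZMod 2) U] [Fintype U] [DecidableEq U]
  [AddCommGroup V] [Module (ZMod 2) V] [Fintype V] [DecidableEq V]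
  [Fintype (U →ₗ[ZMod 2] V)]

lemma good_lower : IsLowerSet ((good U V : Finset (Finset (U × V))) : Set (Finset (U × V))) := by
  intro A B hBA hA
  simp only [good, coe_filter, mem_univ, true_and, Set.mem_ofPred_eq] at hA ⊢
  obtain ⟨φ, h⟩ := hA
  exact ⟨φ, h.mono_right hBA⟩

lemma chrom_le (A : Finset (U × V)) (hA : A ∈ good U V) :
    (SimpleGraph.fromRel (fun x y : U × V => x + y ∈ A)).chromaticNumber.toNat ≤
      Fintype.card V := by
  simp only [good, mem_filter, mem_univ, true_and] at hA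
  obtain ⟨φ, h⟩ := hA
  have key : ∀ x y : U × V, x ≠ y → x + y ∈ A → x.2 + φ x.1 ≠ y.2 + φ y.1 := by
    intro x y hxy hmem he
    have h1 : x.2 + y.2 = φ (x.1 + y.1) := by
      rw [map_add, ← add_eq_zero_iff2, add_add_add_comm, he, addself]
    have h2 : x.1 + y.1 ≠ 0 := by
      intro h0
      apply hxy
      rw [h0, map_zero, add_eq_zero_iff2] at h1
      exact Prod.ext ((add_eq_zero_iff2 _ _).1 h0) h1
    refine disjoint_left.1 h ?_ hmem
    exact mem_image.2 ⟨x.1 + y.1, by simp [h2], by rw [← h1]; rfl⟩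
  let C : (SimpleGraph.fromRel (fun x y : U × V => x + y ∈ A)).Coloring V :=
    SimpleGraph.Coloring.mk (fun x => x.2 + φ x.1) (by
      intro x y hxy
      rw [SimpleGraph.fromRel_adj] at hxy
      rcases hxy.2 with h' | h'
      · exact key x y hxy.1 h'
      · exact key x y hxy.1 (by rwa [add_comm]))
  have h1 := C.colorable.chromaticNumber_le
  exact ENat.toNat_le_of_le_natCast h1

lemma finish (d e : ℕ) (hd : 0 < d) (hcG : Fintype.card (U × V) = 256 * d * 2 ^ e)
    (hcV : Fintype.card V = 2 ^ e) (hlow : 2 ^ Fintype.card (U × V) ≤ 10 * #(good U V))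
    (hup : 4 * #(cliq (U × V) (255 * d)) ≤ 3 * 2 ^ Fintype.card (U × V))
    (F : Finset (Finset (U × V)))
    (hF : ∀ A ∈ F, |((SimpleGraph.fromRel
          (fun x y : U × V => x + y ∈ A)).chromaticNumber.toNat : ℝ) *
        ((SimpleGraph.fromRel (fun x y : U × V => x + y ∈ A)).cliqueNum : ℝ) /
        (Fintype.card (U × V) : ℝ) - 1| ≤ 1 / 300) :
    40 * #F ≤ 39 * 2 ^ Fintype.card (U × V) := by
  have hH := IsLowerSet.le_card_inter_finset (good_lower (U := U) (V := V))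
    (cliq_compl_lower (G := U × V) (255 * d))
  have hy : #((cliq (U × V) (255 * d))ᶜ) + #(cliq (U × V) (255 * d)) =
      2 ^ Fintype.card (U × V) := by
    rw [card_compl_add_card, Fintype.card_finset]
  set N := Fintype.card (U × V) with hN
  set x := #(good U V)
  set y := #((cliq (U × V) (255 * d))ᶜ)
  set B := good U V ∩ (cliq (U × V) (255 * d))ᶜ with hB
  have h1 : 2 ^ N ≤ 40 * #B := by
    have h2 : 2 ^ N * 2 ^ N ≤ 2 ^ N * (40 * #B) := by
      calc 2 ^ N * 2 ^ N ≤ (10 * x) * (4 * y) := Nat.mul_le_mul hlow (by omega)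
        _ = 40 * (x * y) := by ring
        _ ≤ 40 * (2 ^ N * #B) := Nat.mul_le_mul_left _ hH
        _ = 2 ^ N * (40 * #B) := by ring
    exact Nat.le_of_mul_le_mul_left h2 (by positivity)
  have hdis : Disjoint F B := by
    rw [disjoint_left]
    intro A hAF hAB
    rw [hB, mem_inter, mem_compl] at hAB
    have h2 := chrom_le A hAB.1
    have h3 := (cliqueNum_lt A (255 * d) (by omega) hAB.2).le
    rw [hcV] at h2
    have h4 := hF A hAF
    have h5 : (((SimpleGraph.fromRel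
        (fun x y : U × V => x + y ∈ A)).chromaticNumber.toNat : ℝ) *
        ((SimpleGraph.fromRel (fun x y : U × V => x + y ∈ A)).cliqueNum : ℝ)) ≤
        ((2 ^ e * (255 * d) : ℕ) : ℝ) := by
      exact_mod_cast Nat.mul_le_mul h2 h3
    have h6 : (N : ℝ) = 256 * ((d : ℝ) * 2 ^ e) := by
      rw [hcG]
      push_cast
      ring
    have h7 : (0 : ℝ) < (d : ℝ) * 2 ^ e := by
      have : (0 : ℝ) < d := by exact_mod_cast hd
      positivity
    have h8 := (abs_le.1 h4).1
    rw [h6, le_sub_iff_add_le, le_div_iff₀ (by positivity)] at h8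
    push_cast at h5
    nlinarith
  have h2 : #F + #B ≤ 2 ^ N := by
    rw [← card_union_of_disjoint hdis, hN, ← Fintype.card_finset]
    exact card_le_univ _
  omega

end prod

theorem main (N₀ : ℕ) : ∃ (m e : ℕ), N₀ ≤ Fintype.card ((Fin m → ZMod 2) × (Fin e → ZMod 2)) ∧
    ∀ F : Finset (Finset ((Fin m → ZMod 2) × (Fin e → ZMod 2))),
      (∀ A ∈ F, |((SimpleGraph.fromRel
          (fun x y : (Fin m → ZMod 2) × (Fin e → ZMod 2) => x + y ∈ A)).chromaticNumber.toNat : ℝ) *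
        ((SimpleGraph.fromRel
          (fun x y : (Fin m → ZMod 2) × (Fin e → ZMod 2) => x + y ∈ A)).cliqueNum : ℝ) /
        (Fintype.card ((Fin m → ZMod 2) × (Fin e → ZMod 2)) : ℝ) - 1| ≤ 1 / 300) →
      40 * #F ≤ 39 * 2 ^ Fintype.card ((Fin m → ZMod 2) × (Fin e → ZMod 2)) := by
  classical
  obtain ⟨K, hK40, hKJ⟩ : ∃ K : ℕ, 40 ≤ K ∧ ∀ J, K ^ J = 2 ^ (960 * J) :=
    ⟨2 ^ 960, le_trans (by norm_num : 40 ≤ 2 ^ 6) (Nat.pow_le_pow_right (by norm_num) (by norm_num)),
      fun J => (pow_mul 2 960 J).symm⟩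
  obtain ⟨C, hC⟩ : ∃ C : ℕ, C = 2 ^ (K + 10) := ⟨_, rfl⟩
  have hCK : 1024 * K ≤ C := by
    rw [hC, pow_add, mul_comm]
    exact Nat.mul_le_mul Nat.lt_two_pow_self.le (by norm_num)
  obtain ⟨c0, hc0⟩ : ∃ c0 : ℕ, c0 = K ^ 4 + K := ⟨_, rfl⟩
  have hKc0 : K ≤ c0 := by omega
  obtain ⟨q, hq, hqp⟩ := Nat.exists_infinite_primes
    (N₀ + 1028 * c0 + 960 + 16384 * ((C + 2) * (C * C)))
  have hC1 : 1 ≤ C := by omega
  have hCC : 1 ≤ C * C := Nat.mul_pos hC1 hC1
  obtain ⟨e, he⟩ := exists_e q hqp (by omega)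
  obtain ⟨Q, hQ⟩ : ∃ Q : ℕ, Q = 2 ^ q := ⟨_, rfl⟩
  have hmaster : 16384 * ((C + 2) * (C * C)) * q ^ 2 ≤ Q := by
    calc 16384 * ((C + 2) * (C * C)) * q ^ 2 ≤ q * q ^ 2 := Nat.mul_le_mul_right _ (by omega)
      _ = q ^ 3 := by ring
      _ ≤ 2 ^ q := cube_le q (by omega)
      _ = Q := hQ.symm
  obtain ⟨b, hb⟩ : ∃ b, 2 * q = b + 8 := ⟨2 * q - 8, by omega⟩
  obtain ⟨d, hd⟩ : ∃ d : ℕ, d = 2 ^ b := ⟨_, rfl⟩
  have hQQ : Q * Q = 256 * d := by
    rw [hQ, ← pow_add, ← two_mul, hb, pow_add, hd]; ring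
  have hh : 2 ^ (2 * q) = 256 * d := by rw [hb, pow_add, hd]; ring
  have hq1 : 1 ≤ q := by omega
  have hqq : q ≤ q ^ 2 := Nat.le_self_pow (by norm_num) q
  have hM1 : 16384 * (C + 2) * q ^ 2 ≤ Q := by
    refine le_trans ?_ hmaster
    apply Nat.mul_le_mul_right
    apply Nat.mul_le_mul_left
    exact Nat.le_mul_of_pos_right _ hCC
  have hM2 : 16384 * q ^ 2 ≤ Q := by
    refine le_trans ?_ hM1
    apply Nat.mul_le_mul_right
    omega
  have hM3 : 4 * q * (C * C) ≤ Q := by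
    refine le_trans ?_ hmaster
    calc 4 * q * (C * C) ≤ (16384 * (C + 2)) * q ^ 2 * (C * C) :=
          Nat.mul_le_mul_right _ (Nat.mul_le_mul (by omega) hqq)
      _ = 16384 * ((C + 2) * (C * C)) * q ^ 2 := by ring
  have hQ256 : 256 ≤ Q := by omega
  have hQd : Q ≤ d := by
    have : Q * 256 ≤ d * 256 := by
      calc Q * 256 ≤ Q * Q := Nat.mul_le_mul_left _ hQ256
        _ = d * 256 := by rw [hQQ]; ring
    omega
  have hm2 : 2 * q * (2 * q) = 4 * q ^ 2 := by ring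
  have h9 : 9 * (2 * q) ≤ e := by
    have : 2 * q * (9 * (2 * q)) ≤ 2 * q * e := by
      have e1 : 2 * q * (9 * (2 * q)) = 36 * q ^ 2 := by ring
      omega
    exact Nat.le_of_mul_le_mul_left this (by omega)
  refine ⟨2 * q, e, ?_, ?_⟩
  · simp only [Fintype.card_prod, Fintype.card_fun, Fintype.card_fin, ZMod.card]
    have h1 : 2 * q ≤ 2 ^ (2 * q) := Nat.lt_two_pow_self.le
    have h2 : 2 ^ (2 * q) ≤ 2 ^ (2 * q) * 2 ^ e := Nat.le_mul_of_pos_right _ (by positivity)
    omega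
  intro F hF
  have : Finite ((Fin (2 * q) → ZMod 2) →ₗ[ZMod 2] (Fin e → ZMod 2)) :=
    Module.finite_of_finite (ZMod 2)
  have : Fintype ((Fin (2 * q) → ZMod 2) →ₗ[ZMod 2] (Fin e → ZMod 2)) := Fintype.ofFinite _
  have hcV : Fintype.card (Fin e → ZMod 2) = 2 ^ e := by simp
  have hcG : Fintype.card ((Fin (2 * q) → ZMod 2) × (Fin e → ZMod 2)) = 2 ^ (2 * q + e) := by
    simp [pow_add]
  have hlow := lower (U := Fin (2 * q) → ZMod 2) (V := Fin e → ZMod 2) (2 * q) e (by simp) (by simp)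
    he (by omega) h9
  have haC : 2 ^ (2 * q - (K + 10)) * C = 256 * d := by
    rw [hC, ← pow_add, ← hh]
    congr 1
    omega
  obtain ⟨a, ha⟩ : ∃ a : ℕ, a = 2 ^ (2 * q - (K + 10)) := ⟨_, rfl⟩
  have ha0 : 0 < a := by rw [ha]; positivity
  rw [← ha] at haC
  have hnm : (2 * q + e) * (2 * q) + 4 = 256 * d + 2 * q * (2 * q) := by
    rw [← hh, ← he]; ring
  have hup := upper (G := (Fin (2 * q) → ZMod 2) × (Fin e → ZMod 2)) (2 * q + e) b
    (2 * q / 960 + 1) K a ((2 * q + K) * C) ((2 * q + K) * Q) (2 * q + K) Q hcG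
    (by rw [← hb, ← hd]; exact hnm) (by omega)
    (by
      rw [hKJ, ← hd]
      have : 2 ^ (2 * q) ≤ 2 ^ (960 * (2 * q / 960 + 1)) :=
        Nat.pow_le_pow_right (by norm_num) (by omega)
      omega)
    (by omega) hK40
    (by
      rw [← hb, ← hd, mul_assoc]
      omega)
    ha0
    (by
      rw [← hd]
      have h1 : 1024 * K * a ≤ C * a := Nat.mul_le_mul_right _ hCK
      have e1 : 1024 * K * a = 2 * (512 * K * a) := by ring
      rw [mul_comm C a] at h1
      omega)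
    (by rw [← hd]; omega)
    (by
      rw [← hd, pow_add, hh, mul_comm (256 * d)]
      exact Nat.mul_lt_mul'' Nat.lt_two_pow_self (by omega))
    (by
      rw [← hd, mul_assoc, mul_comm C a, haC]
      exact Nat.mul_le_mul_left _ (by omega))
    (by
      have h1 : Q * ((2 * q + K) * C) * C ≤ a * C := by
        calc Q * ((2 * q + K) * C) * C = Q * ((2 * q + K) * (C * C)) := by ring
          _ ≤ Q * (4 * q * (C * C)) :=
              Nat.mul_le_mul_left _ (Nat.mul_le_mul_right _ (by omega))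
          _ ≤ Q * Q := Nat.mul_le_mul_left _ hM3
          _ = a * C := by rw [hQQ, haC]
      exact Nat.le_of_mul_le_mul_right h1 hC1)
    (by
      rw [← hd, mul_assoc, hQQ]
      exact Nat.mul_le_mul_left _ (by omega))
    (by
      rw [← hb, ← hd, ← hc0]
      set t := 1 + Q * ((2 * q + K) * C) + (2 * q + K) * Q with ht
      have h1 : t ≤ 4 * q * Q * (C + 2) := by
        have h2 : Q * ((2 * q + K) * C) ≤ Q * (4 * q * C) :=
          Nat.mul_le_mul_left _ (Nat.mul_le_mul_right _ (by omega))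
        have h3 : (2 * q + K) * Q ≤ 4 * q * Q := Nat.mul_le_mul_right _ (by omega)
        have h4 : 1 ≤ 4 * q * Q := Nat.mul_pos (by omega) (by omega)
        have e1 : 4 * q * Q * (C + 2) = Q * (4 * q * C) + 4 * q * Q + 4 * q * Q := by ring
        omega
      have h2 : 4 * ((c0 + 2 * q) * t) * 256 ≤ d * 256 := by
        calc 4 * ((c0 + 2 * q) * t) * 256 ≤ 4 * ((4 * q) * (4 * q * Q * (C + 2))) * 256 :=
              Nat.mul_le_mul_right _ (Nat.mul_le_mul_left _ (Nat.mul_le_mul (by omega) h1))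
          _ = (16384 * (C + 2) * q ^ 2) * Q := by ring
          _ ≤ Q * Q := Nat.mul_le_mul_right _ hM1
          _ = d * 256 := by rw [hQQ]; ring
      have h3 : 4 * (c0 * (2 * q + e)) * (2 * q) ≤ d * (2 * q) := by
        calc 4 * (c0 * (2 * q + e)) * (2 * q) = 4 * c0 * ((2 * q + e) * (2 * q)) := by ring
          _ ≤ 4 * c0 * (257 * d) := Nat.mul_le_mul_left _ (by omega)
          _ = d * (1028 * c0) := by ring
          _ ≤ d * (2 * q) := Nat.mul_le_mul_left _ (by omega)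
      have h4 := Nat.le_of_mul_le_mul_right h3 (by omega)
      have e1 : (c0 + 2 * q) * (2 * q + e + t) =
          c0 * (2 * q + e) + (2 * q + e) * (2 * q) + (c0 + 2 * q) * t := by ring
      omega)
  rw [← hd] at hup
  exact finish d e (by omega) (by rw [hcG, pow_add, hh]) hcV hlow hup F hF

end Pool.Agent.H883Z.Cay
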