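import Pool.Agent.H883Z.CayBasic

set_option autoImplicit false

namespace Pool.Agent.H883Z.Cay

open Finset Pointwise Module

section container
variable {G : Type} [AddCommGroup G] [DecidableEq G] [Fintype G]

/-- the container attached to `Y` -/
def cont (Y : Finset G) : Finset G :=
  univ.filter fun x => #Y ≤ 2 * #(Y.filter fun y => x + y ∈ Y + Y)

lemma card_cont_le (Y : Finset G) (hY : Y.Nonempty) : #(cont Y) ≤ 2 * #(Y + Y) := by
  have h1 : #(cont Y) * #Y ≤ ∑ x ∈ cont Y, 2 * #(Y.filter fun y => x + y ∈ Y + Y) := by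
    rw [← smul_eq_mul]
    apply card_nsmul_le_sum
    intro x hx
    simpa [cont] using hx
  have h2 : ∑ x ∈ cont Y, #(Y.filter fun y => x + y ∈ Y + Y) ≤ #Y * #(Y + Y) := by
    simp only [card_filter]
    rw [sum_comm, ← smul_eq_mul]
    apply sum_le_card_nsmul
    intro y _
    rw [← card_filter]
    apply card_le_card_of_injOn (fun x => x + y)
    · intro x hx
      simp only [coe_filter, Set.mem_ofPred_eq] at hx
      exact hx.2
    · intro x _ x' _ h
      exact add_right_cancel h
  rw [← mul_sum] at h1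
  have h3 : #(cont Y) * #Y ≤ 2 * #(Y + Y) * #Y := by nlinarith
  exact Nat.le_of_mul_le_mul_right h3 hY.card_pos

lemma exists_cont (X : Finset G) (h0 : (0 : G) ∈ X) :
    ∃ Y ⊆ X, (0 : G) ∈ Y ∧ #Y ^ 2 ≤ 4 * #(Y + Y) ∧ X ⊆ cont Y := by
  obtain ⟨Y, hY, hmax⟩ := exists_max_image
    (X.powerset.filter fun Y => (0 : G) ∈ Y ∧ #Y ^ 2 ≤ 4 * #(Y + Y)) card
    ⟨{0}, by simp [h0]⟩
  simp only [mem_filter, mem_powerset] at hY hmax
  refine ⟨Y, hY.1, hY.2.1, hY.2.2, fun x hx => ?_⟩
  simp only [cont, mem_filter, mem_univ, true_and]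
  by_cases hxY : x ∈ Y
  · rw [filter_true_of_mem (fun y hy => add_mem_add hxY hy)]
    omega
  have h1 : ¬ (#(insert x Y) ^ 2 ≤ 4 * #(insert x Y + insert x Y)) := by
    intro h
    have := hmax (insert x Y) ⟨insert_subset hx hY.1, mem_insert_of_mem hY.2.1, h⟩
    rw [card_insert_of_notMem hxY] at this
    omega
  rw [card_insert_of_notMem hxY] at h1
  have h2 : #(Y + Y) + #(Y.filter fun y => ¬ (x + y ∈ Y + Y)) ≤ #(insert x Y + insert x Y) := by
    rw [← card_image_of_injective (Y.filter fun y => ¬ (x + y ∈ Y + Y)) (add_right_injective x),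
      ← card_union_of_disjoint]
    · apply card_le_card
      apply union_subset
      · exact add_subset_add (subset_insert _ _) (subset_insert _ _)
      · intro z hz
        obtain ⟨y, hy, rfl⟩ := mem_image.1 hz
        exact add_mem_add (mem_insert_self _ _) (mem_insert_of_mem (mem_filter.1 hy).1)
    · rw [disjoint_right]
      intro z hz
      obtain ⟨y, hy, rfl⟩ := mem_image.1 hz
      exact (mem_filter.1 hy).2
  have h3 := card_filter_add_card_filter_not (s := Y) (fun y => x + y ∈ Y + Y)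
  have h4 := hY.2.2
  have h5 : 4 * #(Y.filter fun y => ¬ (x + y ∈ Y + Y)) < 2 * #Y + 1 := by nlinarith
  omega

end container

section hitting
variable {α β : Type} [DecidableEq α]

lemma hit (X : Finset α) (I : Finset β) (F : β → Finset α) (a : ℕ)
    (hF : ∀ w ∈ I, F w ⊆ X ∧ a ≤ #(F w)) (hX : X.Nonempty) (ha : a ≤ #X) (s : ℕ) :
    ∃ Y ⊆ X, #Y ≤ s ∧
      (#(I.filter fun w => Disjoint (F w) Y) : ℝ) ≤ #I * (1 - (a : ℝ) / #X) ^ s := by
  have hk : (0 : ℝ) < #X := by exact_mod_cast hX.card_pos
  have h01 : (0 : ℝ) ≤ 1 - (a : ℝ) / #X := by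
    rw [sub_nonneg, div_le_one hk]
    exact_mod_cast ha
  induction s with
  | zero =>
    refine ⟨∅, empty_subset _, by simp, ?_⟩
    simp
  | succ s ih =>
    obtain ⟨Y, hYX, hYs, hY⟩ := ih
    set I' := I.filter fun w => Disjoint (F w) Y with hI'
    have h1 : #I' * a ≤ ∑ x ∈ X, #(I'.filter fun w => x ∈ F w) := by
      simp only [card_filter]
      rw [sum_comm, ← smul_eq_mul]
      apply card_nsmul_le_sum
      intro w hw
      rw [← card_filter, filter_mem_eq_inter, inter_eq_right.2 (hF w (mem_filter.1 hw).1).1]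
      exact (hF w (mem_filter.1 hw).1).2
    obtain ⟨x, hx, hxmax⟩ := exists_max_image X (fun x => #(I'.filter fun w => x ∈ F w)) hX
    have h2 : ∑ x ∈ X, #(I'.filter fun w => x ∈ F w) ≤ #X * #(I'.filter fun w => x ∈ F w) := by
      rw [← smul_eq_mul]
      exact sum_le_card_nsmul _ _ _ hxmax
    refine ⟨insert x Y, insert_subset hx hYX, (card_insert_le _ _).trans (by omega), ?_⟩
    have h3 : I.filter (fun w => Disjoint (F w) (insert x Y)) = I'.filter fun w => ¬ x ∈ F w := by
      rw [hI', filter_filter]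
      apply filter_congr
      intro w _
      rw [disjoint_insert_right, and_comm]
    have h4 := card_filter_add_card_filter_not (s := I') (fun w => x ∈ F w)
    rw [h3]
    have h5 : ((#I' : ℝ) * a) ≤ #X * #(I'.filter fun w => x ∈ F w) := by
      exact_mod_cast h1.trans h2
    have h6 : (#(I'.filter fun w => x ∈ F w) : ℝ) + #(I'.filter fun w => ¬ x ∈ F w) = #I' := by
      exact_mod_cast h4
    have h7 : (#I' : ℝ) * ((a : ℝ) / #X) ≤ #(I'.filter fun w => x ∈ F w) := by
      rw [← mul_div_assoc, div_le_iff₀ hk]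
      linarith
    calc (#(I'.filter fun w => ¬ x ∈ F w) : ℝ) ≤ #I' * (1 - (a : ℝ) / #X) := by
          rw [mul_sub]; linarith
      _ ≤ (#I * (1 - (a : ℝ) / #X) ^ s) * (1 - (a : ℝ) / #X) :=
          mul_le_mul_of_nonneg_right hY h01
      _ = #I * (1 - (a : ℝ) / #X) ^ (s + 1) := by rw [pow_succ, mul_assoc]

lemma hit_all (X : Finset α) (I : Finset β) (F : β → Finset α) (a : ℕ)
    (hF : ∀ w ∈ I, F w ⊆ X ∧ a ≤ #(F w)) (hX : X.Nonempty) (ha : a ≤ #X) (s p : ℕ)
    (hp : #I < 2 ^ p) (hs : p * #X ≤ s * a) :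
    ∃ Y ⊆ X, #Y ≤ s ∧ ∀ w ∈ I, ¬ Disjoint (F w) Y := by
  obtain ⟨Y, hYX, hYs, hY⟩ := hit X I F a hF hX ha s
  refine ⟨Y, hYX, hYs, ?_⟩
  have hk : (0 : ℝ) < #X := by exact_mod_cast hX.card_pos
  have h01 : (0 : ℝ) ≤ 1 - (a : ℝ) / #X := by
    rw [sub_nonneg, div_le_one hk]
    exact_mod_cast ha
  have h1 : (1 - (a : ℝ) / #X) ^ s ≤ (1 / 2) ^ p := by
    calc (1 - (a : ℝ) / #X) ^ s ≤ (Real.exp (-((a : ℝ) / #X))) ^ s :=
          pow_le_pow_left₀ h01 (Real.one_sub_le_exp_neg _) s
      _ = Real.exp (-(s * ((a : ℝ) / #X))) := by rw [← Real.exp_nat_mul]; congr 1; ring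
      _ ≤ Real.exp (p * (-1)) := by
          apply Real.exp_le_exp.2
          have : (p : ℝ) ≤ s * ((a : ℝ) / #X) := by
            rw [← mul_div_assoc, le_div_iff₀ hk]
            exact_mod_cast hs
          linarith
      _ = (Real.exp (-1)) ^ p := by rw [Real.exp_nat_mul]
      _ ≤ (1 / 2) ^ p := by
          apply pow_le_pow_left₀ (Real.exp_pos _).le
          rw [Real.exp_neg, one_div]
          apply inv_anti₀ (by norm_num)
          have := Real.add_one_le_exp 1
          linarith
  have h2 : (#I : ℝ) * (1 / 2) ^ p < 1 := by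
    rw [one_div, inv_pow, ← div_eq_mul_inv, div_lt_one (by positivity)]
    exact_mod_cast hp
  have h3 : (#(I.filter fun w => Disjoint (F w) Y) : ℝ) < 1 :=
    lt_of_le_of_lt (hY.trans (mul_le_mul_of_nonneg_left h1 (by positivity))) h2
  have h4 : #(I.filter fun w => Disjoint (F w) Y) = 0 := by
    have : #(I.filter fun w => Disjoint (F w) Y) < 1 := by exact_mod_cast h3
    omega
  rw [card_eq_zero, filter_eq_empty_iff] at h4
  exact fun w hw => h4 hw

lemma hit_many (X : Finset α) (I : Finset β) (P : β → Finset α) (a : ℕ)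
    (hP : ∀ w ∈ I, P w ⊆ X ∧ 2 * a ≤ #(P w)) (hX : X.Nonempty) (ha : a ≤ #X) (s p : ℕ)
    (hp : #I < 2 ^ p) (hs : p * #X ≤ s * a) (u : ℕ) (hu : u * s ≤ a) :
    ∃ Y ⊆ X, #Y ≤ u * s ∧ ∀ w ∈ I, u ≤ #(P w ∩ Y) := by
  induction u with
  | zero => exact ⟨∅, empty_subset _, by simp, by simp⟩
  | succ u ih =>
    have e : (u + 1) * s = u * s + s := by ring
    obtain ⟨Y, hYX, hYs, hY⟩ := ih (by omega)
    obtain ⟨Z, hZX, hZs, hZ⟩ := hit_all X I (fun w => P w \ Y) a (by
      intro w hw
      refine ⟨sdiff_subset.trans (hP w hw).1, ?_⟩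
      have h1 := le_card_sdiff Y (P w)
      have h2 := (hP w hw).2
      omega) hX ha s p hp hs
    refine ⟨Y ∪ Z, union_subset hYX hZX, (card_union_le _ _).trans (by omega), ?_⟩
    intro w hw
    obtain ⟨z, hz1, hz2⟩ := not_disjoint_iff.1 (hZ w hw)
    rw [mem_sdiff] at hz1
    have h1 : insert z (P w ∩ Y) ⊆ P w ∩ (Y ∪ Z) := by
      apply insert_subset
      · exact mem_inter.2 ⟨hz1.1, mem_union_right _ hz2⟩
      · exact inter_subset_inter_left subset_union_left
    have h2 := card_le_card h1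
    rw [card_insert_of_notMem (fun h => hz1.2 (mem_inter.1 h).2)] at h2
    have := hY w hw
    omega

end hitting

section popular
variable {G : Type} [AddCommGroup G] [Module (ZMod 2) G] [DecidableEq G] [Fintype G]

/-- number of representations -/
def rep (X : Finset G) (w : G) : ℕ := #(X.filter fun x => x + w ∈ X)

/-- popular sums -/
def pop (X : Finset G) (a : ℕ) : Finset G := univ.filter fun w => 2 * a ≤ rep X w

lemma pop_cover (X : Finset G) (h0 : (0 : G) ∈ X) (a s s' p u : ℕ) (ha : a ≤ #X) (huX : u ≤ #X)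
    (hp : #(pop X a) < 2 ^ p) (hs : p * #X ≤ s * a) (hu : u * s ≤ a) (hs' : p * #X ≤ s' * u) :
    ∃ Y ⊆ X, (0 : G) ∈ Y ∧ #Y ≤ 1 + u * s + s' ∧ pop X a ⊆ Y + Y := by
  have hX : X.Nonempty := ⟨0, h0⟩
  obtain ⟨Y, hYX, hYs, hY⟩ := hit_many X (pop X a) (fun w => X.filter fun x => x + w ∈ X) a (by
    intro w hw
    exact ⟨filter_subset _ _, (mem_filter.1 hw).2⟩) hX ha s p hp hs u hu
  obtain ⟨Z, hZX, hZs, hZ⟩ := hit_all X (pop X a)
    (fun w => ((X.filter fun x => x + w ∈ X) ∩ Y).image fun x => x + w) u (by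
      intro w hw
      constructor
      · intro z hz
        obtain ⟨y, hy, rfl⟩ := mem_image.1 hz
        exact (mem_filter.1 (mem_inter.1 hy).1).2
      · rw [card_image_of_injective _ (add_left_injective w)]
        exact hY w hw) hX huX s' p hp hs'
  refine ⟨insert 0 (Y ∪ Z), insert_subset h0 (union_subset hYX hZX), mem_insert_self _ _, ?_, ?_⟩
  · have h1 := card_insert_le (0 : G) (Y ∪ Z)
    have h2 := card_union_le Y Z
    omega
  · intro w hw
    obtain ⟨z, hz1, hz2⟩ := not_disjoint_iff.1 (hZ w hw)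
    obtain ⟨y, hy, rfl⟩ := mem_image.1 hz1
    refine mem_add.2 ⟨y, mem_insert_of_mem (mem_union_left _ (mem_inter.1 hy).2), y + w,
      mem_insert_of_mem (mem_union_right _ hz2), ?_⟩
    rw [← add_assoc, addself, zero_add]

omit [Module (ZMod 2) G] [Fintype G] in
lemma rep_le (X : Finset G) (w : G) : rep X w ≤ #X := card_filter_le _ _

omit [Fintype G] in
lemma rep_add (X : Finset G) (w w' : G) : rep X w + rep X w' ≤ rep X (w + w') + #X := by
  have h1 := card_union_add_card_inter (X.filter fun x => x + w ∈ X) (X.filter fun x => x + w' ∈ X)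
  have h2 : #((X.filter fun x => x + w ∈ X) ∪ (X.filter fun x => x + w' ∈ X)) ≤ #X :=
    card_le_card (union_subset (filter_subset _ _) (filter_subset _ _))
  have h3 : #((X.filter fun x => x + w ∈ X) ∩ (X.filter fun x => x + w' ∈ X)) ≤
      rep X (w + w') := by
    apply card_le_card_of_injOn (fun x => x + w)
    · intro x hx
      simp only [coe_inter, coe_filter, Set.mem_inter_iff, Set.mem_ofPred_eq] at hx ⊢
      refine ⟨hx.1.2, ?_⟩
      rw [← add_assoc, add_add_self]
      exact hx.2.2
    · intro x _ y _ h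
      exact add_right_cancel h
  simp only [rep] at h3 ⊢
  omega

omit [Module (ZMod 2) G] in
lemma sum_rep (X : Finset G) : ∑ w, rep X w = #X * #X := by
  simp only [rep, card_filter]
  rw [sum_comm, sum_congr rfl (g := fun _ => #X)]
  · simp
  · intro x _
    rw [← card_filter]
    apply card_bij (fun w _ => x + w)
    · intro w hw
      exact (mem_filter.1 hw).2
    · intro w _ w' _ h
      exact add_left_cancel h
    · intro y hy
      exact ⟨y - x, by simpa using hy, by abel⟩

omit [Fintype G] in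
lemma mem_add_of_rep (X : Finset G) (w : G) (h : 0 < rep X w) : w ∈ X + X := by
  obtain ⟨x, hx⟩ := card_pos.1 h
  rw [mem_filter] at hx
  refine mem_add.2 ⟨x, hx.1, x + w, hx.2, ?_⟩
  rw [← add_assoc, addself, zero_add]

omit [DecidableEq G] in
lemma card_submodule (W : Submodule (ZMod 2) G) [DecidablePred (· ∈ W)] :
    #(univ.filter fun x => x ∈ W) = 2 ^ finrank (ZMod 2) W := by
  have := Module.natCard_eq_pow_finrank (K := ZMod 2) (V := W)
  rw [Nat.card_zmod] at this
  rw [← this, ← Fintype.card_subtype, Nat.card_eq_fintype_card]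

lemma card_pop_le (X : Finset G) (a : ℕ) (ha : 0 < a) : #(pop X a) ≤ #(X + X) := by
  apply card_le_card
  intro w hw
  apply mem_add_of_rep
  have := (mem_filter.1 hw).2
  omega

lemma exists_subspace (X : Finset G) (b a K : ℕ) (hk : #X = 255 * 2 ^ b)
    (hK : #(X + X) ≤ K * #X) (ha : 512 * K * a ≤ #X) (hpop : #(pop X a) ≤ 257 * 2 ^ b) :
    ∃ H ∈ subsp (G := G) (b + 8), H ⊆ X + X := by
  classical
  set d := 2 ^ b with hd
  have hd0 : 0 < d := by positivity
  set k := #X with hkdef
  let U : ℕ → Finset G := fun j => univ.filter fun w => j * k ≤ 20 * rep X w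
  have hUmem : ∀ j w, w ∈ U j ↔ j * k ≤ 20 * rep X w := by simp [U]
  have hUcard : ∀ j, #(U j) * j ≤ 20 * k := by
    intro j
    have h1 : #(U j) * (j * k) ≤ ∑ w ∈ U j, 20 * rep X w := by
      rw [← smul_eq_mul]
      exact card_nsmul_le_sum _ _ _ fun w hw => (hUmem j w).1 hw
    have h2 : ∑ w ∈ U j, 20 * rep X w ≤ ∑ w, 20 * rep X w :=
      sum_le_sum_of_subset (subset_univ _)
    rw [← mul_sum univ, sum_rep] at h2
    have h3 : #(U j) * j * k ≤ 20 * k * k := by nlinarith
    exact Nat.le_of_mul_le_mul_right h3 (by omega)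
  have hT : 197 * d ≤ #(U 19) := by
    have h1 : ∑ w, 20 * rep X w ≤ ∑ w, ((if w ∈ X + X then 40 * a else 0) +
        (if w ∈ pop X a then 19 * k else 0) + (if w ∈ U 19 then k else 0)) := by
      apply sum_le_sum
      intro w _
      have h2 := rep_le X w
      by_cases hw : w ∈ pop X a
      · rw [if_pos hw]
        by_cases hw' : w ∈ U 19
        · rw [if_pos hw']; omega
        · rw [if_neg hw']
          rw [hUmem] at hw'
          omega
      · by_cases hw' : w ∈ X + X
        · rw [if_pos hw']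
          simp only [pop, mem_filter, mem_univ, true_and] at hw
          omega
        · have : rep X w = 0 := by
            by_contra h
            exact hw' (mem_add_of_rep X w (by omega))
          omega
    rw [← mul_sum univ, sum_rep, sum_add_distrib, sum_add_distrib] at h1
    simp only [sum_ite_mem, univ_inter, sum_const, smul_eq_mul] at h1
    have h2 : 512 * (#(X + X) * a) ≤ k * k := by
      calc 512 * (#(X + X) * a) ≤ 512 * (K * k * a) := by gcongr
        _ = (512 * K * a) * k := by ring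
        _ ≤ k * k := Nat.mul_le_mul_right _ ha
    have h3 : #(pop X a) * (19 * k) ≤ 257 * d * (19 * k) := Nat.mul_le_mul_right _ hpop
    have h4 : 197 * d * k ≤ #(U 19) * k := by
      have e : k * k = 255 * (d * k) := by rw [hk]; ring
      have e2 : #(X + X) * (40 * a) = 40 * (#(X + X) * a) := by ring
      have e3 : 257 * d * (19 * k) = 4883 * (d * k) := by ring
      have e4 : 197 * d * k = 197 * (d * k) := by ring
      rw [← hkdef, e, e2] at h1
      rw [e] at h2
      rw [e3] at h3
      rw [e4]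
      omega
    exact Nat.le_of_mul_le_mul_right h4 (by omega)
  have hadd : ∀ i j w w', w ∈ U i → w' ∈ U j → ∀ l, l + 20 ≤ i + j → w + w' ∈ U l := by
    intro i j w w' hw hw' l hl
    rw [hUmem] at hw hw' ⊢
    have h1 := rep_add X w w'
    have h2 : (l + 20) * k ≤ (i + j) * k := Nat.mul_le_mul_right _ hl
    rw [add_mul, add_mul] at h2
    omega
  have h42 : ∀ w ∈ U 16, w ∈ U 18 := by
    intro w hw
    have h1 : (U 19).image (fun x => w + x) ∪ U 19 ⊆ U 15 := by
      apply union_subset
      · intro z hz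
        obtain ⟨x, hx, rfl⟩ := mem_image.1 hz
        exact hadd 16 19 w x hw hx 15 (by norm_num)
      · intro z hz
        rw [hUmem] at hz ⊢
        omega
    have h2 : ¬ Disjoint ((U 19).image (fun x => w + x)) (U 19) := by
      intro hdis
      have h3 := card_le_card h1
      rw [card_union_of_disjoint hdis, card_image_of_injective _ (add_right_injective w)] at h3
      have h4 := hUcard 15
      omega
    obtain ⟨z, hz1, hz2⟩ := not_disjoint_iff.1 h2
    obtain ⟨x, hx, rfl⟩ := mem_image.1 hz1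
    have := hadd 19 19 _ _ hz2 hx 18 (by norm_num)
    rwa [add_add_self] at this
  have h0 : (0 : G) ∈ U 18 := by
    rw [hUmem]
    have : rep X 0 = k := by
      simp only [rep, add_zero]
      rw [filter_true_of_mem (fun x hx => hx)]
    omega
  let W : Submodule (ZMod 2) G :=
    { carrier := {w | w ∈ U 18}
      add_mem' := fun {x y} hx hy => h42 _ (hadd 18 18 x y hx hy 16 (by norm_num))
      zero_mem' := h0
      smul_mem' := by
        intro c x hx
        have : c = 0 ∨ c = 1 := by revert c; decide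
        rcases this with rfl | rfl
        · rw [zero_smul]; exact h0
        · rw [one_smul]; exact hx }
  have hW : univ.filter (fun x => x ∈ W) = U 18 := by
    ext x
    simp only [mem_filter, mem_univ, true_and]
    rfl
  have hc := card_submodule W
  rw [hW] at hc
  have hlow : #(U 19) ≤ #(U 18) := by
    apply card_le_card
    intro z hz
    rw [hUmem] at hz ⊢
    omega
  have hup := hUcard 18
  have hrank : finrank (ZMod 2) W = b + 8 := by
    have h1 : 2 ^ (b + 7) < 2 ^ finrank (ZMod 2) W := by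
      rw [← hc, pow_add, ← hd]; omega
    have h2 : 2 ^ finrank (ZMod 2) W < 2 ^ (b + 9) := by
      rw [← hc, pow_add, ← hd]; omega
    rw [Nat.pow_lt_pow_iff_right (by norm_num)] at h1 h2
    omega
  refine ⟨U 18, mem_subsp.2 ⟨W, hrank, fun x => Iff.rfl⟩, ?_⟩
  intro w hw
  apply mem_add_of_rep
  rw [hUmem] at hw
  omega

lemma ruzsa_rank (X : Finset G) (h0 : (0 : G) ∈ X) (K m : ℕ) (hK : #(X + X) ≤ K * #X)
    (hm : #X ≤ 2 ^ m) :
    finrank (ZMod 2) (Submodule.span (ZMod 2) (X : Set G)) ≤ K ^ 4 + K + m := by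
  classical
  have hX : X.Nonempty := ⟨0, h0⟩
  have hk : (0 : ℚ≥0) < #X := by exact_mod_cast hX.card_pos
  have h1 := pluennecke_ruzsa_inequality_nsmul_add hX X 4
  have h2 : (#(X + X) / #X : ℚ≥0) ≤ K := by
    rw [div_le_iff₀ hk]
    exact_mod_cast hK
  have h3 : (#(4 • X) : ℚ≥0) ≤ (K : ℚ≥0) ^ 4 * #X := h1.trans (by gcongr)
  have h4 : #(4 • X) ≤ K ^ 4 * #X := by exact_mod_cast h3
  have e4 : 4 • X = X + X + X + X := by
    rw [show (4 : ℕ) = 1 + 1 + 1 + 1 from rfl, add_nsmul, add_nsmul, add_nsmul, one_nsmul]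
  rw [e4] at h4
  obtain ⟨F, -, hF, hcov⟩ := ruzsa_covering_add (A := X + X + X) (B := X)
    (K := ((K ^ 4 : ℕ) : ℝ)) hX (by exact_mod_cast h4)
  have hF' : #F ≤ K ^ 4 := by exact_mod_cast hF
  set V := Submodule.span (ZMod 2) (F : Set G) with hV
  set V' := univ.filter fun x => x ∈ V with hV'
  have hstep : ∀ z ∈ Submodule.span (ZMod 2) (X : Set G), ∀ w ∈ V' + (X + X),
      w + z ∈ V' + (X + X) := by
    intro z hz
    induction hz using Submodule.span_induction with
    | mem x hx =>
      intro w hw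
      obtain ⟨f, hf, s, hs, rfl⟩ := mem_add.1 hw
      obtain ⟨f', hf', t, ht, e⟩ := mem_add.1 (hcov (add_mem_add hs hx))
      obtain ⟨y, hy, y', hy', rfl⟩ := mem_sub.1 ht
      refine mem_add.2 ⟨f + f', ?_, y + y', add_mem_add hy hy', ?_⟩
      · simp only [hV', mem_filter, mem_univ, true_and] at hf ⊢
        exact V.add_mem hf (Submodule.subset_span hf')
      · have : y - y' = y + y' := by
          rw [sub_eq_iff_eq_add, add_add_self]
        rw [add_assoc f s, ← e, this]
        abel
    | zero => intro w hw; simpa using hw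
    | add x y _ _ hx hy =>
      intro w hw
      rw [← add_assoc w x y]
      exact hy _ (hx _ hw)
    | smul c x _ hx =>
      intro w hw
      have : c = 0 ∨ c = 1 := by revert c; decide
      rcases this with rfl | rfl
      · simpa using hw
      · rw [one_smul]; exact hx _ hw
  have hsub : (univ.filter fun x => x ∈ Submodule.span (ZMod 2) (X : Set G)) ⊆ V' + (X + X) := by
    intro z hz
    have := hstep z (mem_filter.1 hz).2 0 (mem_add.2 ⟨0, by simp [hV'], 0,
      mem_add.2 ⟨0, h0, 0, h0, by simp⟩, by simp⟩)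
    simpa using this
  have h5 := (card_le_card hsub).trans card_add_le
  rw [card_submodule, hV', card_submodule] at h5
  have h6 : finrank (ZMod 2) V ≤ K ^ 4 := (finrank_span_finset_le_card F).trans hF'
  have h7 : 2 ^ finrank (ZMod 2) V * #(X + X) ≤ 2 ^ (K ^ 4 + K + m) := by
    rw [pow_add, pow_add, mul_assoc]
    apply Nat.mul_le_mul (Nat.pow_le_pow_right (by norm_num) h6)
    exact hK.trans (Nat.mul_le_mul (Nat.lt_two_pow_self).le hm)
  exact (Nat.pow_le_pow_iff_right (by norm_num)).1 (h5.trans h7)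

end popular

end Pool.Agent.H883Z.Cay
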