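import Pool.Agent.H883Z.CayWalk
import Pool.Agent.H883Z.CayStruct

set_option autoImplicit false

namespace Pool.Agent.H883Z.Cay

open Finset Pointwise Module

variable {G : Type} [AddCommGroup G] [Module (ZMod 2) G] [DecidableEq G] [Fintype G]

lemma cancel_pow (x M s E c : ℕ) (h : x * 2 ^ s ≤ 2 ^ E * (2 * M)) (hE : E + 1 + c ≤ s) :
    x * 2 ^ c ≤ M := by
  have h1 : x * 2 ^ c * 2 ^ (E + 1) ≤ M * 2 ^ (E + 1) := by
    calc x * 2 ^ c * 2 ^ (E + 1) = x * 2 ^ (E + 1 + c) := by ring
      _ ≤ x * 2 ^ s := Nat.mul_le_mul_left _ (Nat.pow_le_pow_right (by norm_num) hE)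
      _ ≤ 2 ^ E * (2 * M) := h
      _ = M * 2 ^ (E + 1) := by ring
  exact Nat.le_of_mul_le_mul_right h1 (by positivity)

/-- sets of size `k` through the origin with sumset of size `l` -/
def sets (G : Type) [AddCommGroup G] [DecidableEq G] [Fintype G] (k l : ℕ) : Finset (Finset G) :=
  univ.filter fun X => (0 : G) ∈ X ∧ #X = k ∧ #(X + X) = l

omit [DecidableEq G] in
lemma rank_le_n (n : ℕ) (hn : Fintype.card G = 2 ^ n) (W : Submodule (ZMod 2) G) :
    finrank (ZMod 2) W ≤ n := by
  classical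
  have h1 := card_submodule W
  have h2 : #(univ.filter fun x => x ∈ W) ≤ Fintype.card G := card_le_univ _
  rw [h1, hn] at h2
  exact (Nat.pow_le_pow_iff_right (by norm_num)).1 h2

lemma card_sets_le (n m k l J K : ℕ) (hn : Fintype.card G = 2 ^ n) (hk0 : 0 < k) (hJ : 1 ≤ J)
    (hkJ : k < K ^ J) (hJm : 480 * J ≤ m) (hK : 40 ≤ K) (hl : K * k < l)
    (hnm : 22 * n * m ≤ 30 * k) :
    ∃ E, #(sets G k l) ≤ 2 ^ E ∧ E + 1 + 9 * k ≤ l := by
  set r := min n (l * m / (30 * k)) with hr
  set t := Nat.sqrt (4 * l) with ht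
  set L := l / 8 + 1 with hL
  have h1 : sets G k l ⊆ ((fam (G := G) r t).filter fun Y => #(cont Y) ≤ 16 * L).biUnion
      fun Y => powersetCard k (cont Y) := by
    intro X hX
    simp only [sets, mem_filter, mem_univ, true_and] at hX
    obtain ⟨h0, hXk, hXl⟩ := hX
    obtain ⟨Y, hYX, hY0, hY2, hXY⟩ := exists_cont X h0
    have hYY : #(Y + Y) ≤ l := hXl ▸ card_le_card (add_subset_add hYX hYX)
    refine mem_biUnion.2 ⟨Y, mem_filter.2 ⟨mem_fam.2 ⟨hY0, ?_, ?_⟩, ?_⟩,
      mem_powersetCard.2 ⟨hXY, hXk⟩⟩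
    · rw [ht, Nat.le_sqrt']
      omega
    · refine le_min (rank_le_n n hn _) ?_
      have h2 : finrank (ZMod 2) (Submodule.span (ZMod 2) (Y : Set G)) ≤
          finrank (ZMod 2) (Submodule.span (ZMod 2) (X : Set G)) :=
        Submodule.finrank_mono (Submodule.span_mono (coe_subset.2 hYX))
      refine h2.trans ?_
      rw [Nat.le_div_iff_mul_le (by omega)]
      set R := finrank (ZMod 2) (Submodule.span (ZMod 2) (X : Set G))
      rcases rank_bound X ⟨0, h0⟩ J K hJ (hXk ▸ hkJ) with h | h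
      · rw [hXk, hXl] at h
        calc R * (30 * k) = 30 * (R * k) := by ring
          _ ≤ 30 * (16 * J * l) := Nat.mul_le_mul_left _ h.le
          _ = l * (480 * J) := by ring
          _ ≤ l * m := Nat.mul_le_mul_left _ hJm
      · calc R * (30 * k) ≤ (8 * (K + 1) * J) * (30 * k) := Nat.mul_le_mul_right _ h.le
          _ ≤ (8 * (K + K) * J) * (30 * k) := by gcongr; omega
          _ = (K * k) * (480 * J) := by ring
          _ ≤ l * m := Nat.mul_le_mul hl.le hJm
    · have := card_cont_le Y ⟨0, hY0⟩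
      omega
  refine ⟨r * (n + t) + (L + 5 * k), ?_, ?_⟩
  · refine (card_le_card h1).trans ?_
    refine (card_biUnion_le_card_mul _ _ (2 ^ (L + 5 * k)) ?_).trans ?_
    · intro Y hY
      rw [card_powersetCard]
      exact (Nat.choose_le_choose k (mem_filter.1 hY).2).trans (choose_le L k)
    · rw [pow_add 2 (r * (n + t))]
      exact Nat.mul_le_mul_right _ ((card_filter_le _ _).trans (card_fam_le r t n hn))
  · have h2 : 2 * (r * (n + t)) ≤ l := by
      by_cases h : t ≤ 10 * n
      · have h3 : r * (30 * k) ≤ l * m := by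
          rw [← Nat.le_div_iff_mul_le (by omega)]
          exact min_le_right _ _
        have hm : 0 < m := by omega
        have h4 : 2 * (r * (n + t)) * m ≤ l * m := by
          calc 2 * (r * (n + t)) * m ≤ 2 * (r * (n + 10 * n)) * m := by gcongr
            _ = r * (22 * n * m) := by ring
            _ ≤ r * (30 * k) := Nat.mul_le_mul_left _ hnm
            _ ≤ l * m := h3
        exact Nat.le_of_mul_le_mul_right h4 hm
      · have h3 : r ≤ n := min_le_left _ _
        have h4 : t * t ≤ 4 * l := Nat.sqrt_le _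
        have h5 : r * (n + t) ≤ n * (n + t) := Nat.mul_le_mul_right _ h3
        have h6 : 10 * n ≤ t := by omega
        nlinarith
    have h3 : 40 * k ≤ K * k := Nat.mul_le_mul_right _ hK
    omega

/-- sets `A` whose sum graph has a clique of size `k` through the origin -/
def cliq (G : Type) [AddCommGroup G] [DecidableEq G] [Fintype G] (k : ℕ) : Finset (Finset G) :=
  univ.filter fun A => ∃ X : Finset G, (0 : G) ∈ X ∧ #X = k ∧ (X + X).erase 0 ⊆ A

theorem upper (n b J K a s s' p u : ℕ) (hn : Fintype.card G = 2 ^ n)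
    (hnm : n * (b + 8) + 4 = 256 * 2 ^ b + (b + 8) * (b + 8))
    (hJ : 1 ≤ J) (hkJ : 255 * 2 ^ b < K ^ J) (hJm : 480 * J ≤ b + 8) (hK : 40 ≤ K)
    (hnm' : 22 * n * (b + 8) ≤ 30 * (255 * 2 ^ b))
    (ha0 : 0 < a) (ha : 512 * K * a ≤ 255 * 2 ^ b) (hu : u ≤ 255 * 2 ^ b)
    (hp : K * (255 * 2 ^ b) < 2 ^ p) (hs : p * (255 * 2 ^ b) ≤ s * a) (hus : u * s ≤ a)
    (hs' : p * (255 * 2 ^ b) ≤ s' * u)
    (hB : (K ^ 4 + K + (b + 8)) * (n + (1 + u * s + s')) + 3 ≤ 257 * 2 ^ b) :
    4 * #(cliq G (255 * 2 ^ b)) ≤ 3 * 2 ^ Fintype.card G := by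
  set d := 2 ^ b with hd
  have hd0 : 0 < d := by positivity
  set k := 255 * d with hk
  set m := b + 8 with hm
  have hh : 2 ^ m = 256 * d := by rw [hm, pow_add, ← hd]; ring
  set FB := ((fam (G := G) (K ^ 4 + K + m) (1 + u * s + s')).image fun Y => Y + Y).filter
    fun S => 257 * d + 1 ≤ #S with hFB
  have hsub : cliq G k ⊆ bad (subsp m) ∪ bad FB ∪
      (Ioc (K * k) (k * k)).biUnion fun l => bad ((sets G k l).image fun X => X + X) := by
    intro A hA
    simp only [cliq, mem_filter, mem_univ, true_and] at hA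
    obtain ⟨X, h0, hXk, hXA⟩ := hA
    by_cases hl : K * k < #(X + X)
    · refine mem_union_right _ (mem_biUnion.2 ⟨#(X + X), mem_Ioc.2 ⟨hl, ?_⟩, ?_⟩)
      · rw [← hXk]; exact card_add_le
      · simp only [bad, mem_filter, mem_univ, true_and]
        exact ⟨X + X, mem_image.2 ⟨X, by simp [sets, h0, hXk], rfl⟩, hXA⟩
    push Not at hl
    apply mem_union_left
    by_cases hpop : #(pop X a) ≤ 257 * d
    · obtain ⟨H, hH, hHX⟩ := exists_subspace X b a K hXk (hXk ▸ hl) (hXk ▸ ha) hpop
      apply mem_union_left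
      simp only [bad, mem_filter, mem_univ, true_and]
      exact ⟨H, hH, (erase_subset_erase _ hHX).trans hXA⟩
    · apply mem_union_right
      have haX : a ≤ #X := by
        rw [hXk]
        refine le_trans ?_ ha
        exact Nat.le_mul_of_pos_left _ (by omega)
      obtain ⟨Y, hYX, hY0, hYt, hYp⟩ := pop_cover X h0 a s s' p u haX (hXk ▸ hu)
        (lt_of_le_of_lt ((card_pop_le X a ha0).trans hl) hp) (hXk ▸ hs) hus (hXk ▸ hs')
      simp only [bad, mem_filter, mem_univ, true_and]
      refine ⟨Y + Y, ?_, (erase_subset_erase _ (add_subset_add hYX hYX)).trans hXA⟩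
      refine mem_filter.2 ⟨mem_image.2 ⟨Y, mem_fam.2 ⟨hY0, hYt, ?_⟩, rfl⟩, ?_⟩
      · refine le_trans (Submodule.finrank_mono (Submodule.span_mono (coe_subset.2 hYX))) ?_
        exact ruzsa_rank X h0 K m (hXk ▸ hl) (by rw [hXk, hh]; omega)
      · have := card_le_card hYp
        omega
  have hA : #(bad (subsp (G := G) m)) * 2 ^ 1 ≤ 2 ^ Fintype.card G := by
    have h1 := card_bad_le (subsp (G := G) m) (256 * d) (by
      intro S hS
      classical
      obtain ⟨W, hW, hx⟩ := mem_subsp.1 hS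
      have h2 := card_submodule W
      rw [hW, hh] at h2
      rw [← h2]
      apply le_of_eq
      congr 1
      ext x
      simp [hx])
    have h2 := card_subsp_le (G := G) m n hn
    have h3 : #(subsp (G := G) m) ≤ 2 ^ (256 * d - 2) := by
      have e : 4 * 2 ^ (n * m) = 2 ^ (256 * d - 2) * 2 ^ (m * m) := by
        rw [← pow_add, show (4 : ℕ) = 2 ^ 2 from rfl, ← pow_add]
        congr 1
        omega
      rw [e] at h2
      exact Nat.le_of_mul_le_mul_right h2 (by positivity)
    exact cancel_pow _ _ _ (256 * d - 2) 1 (h1.trans (Nat.mul_le_mul_right _ h3)) (by omega)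
  have hBB : #(bad FB) * 2 ^ 3 ≤ 2 ^ Fintype.card G := by
    have h1 := card_bad_le FB (257 * d + 1) (fun S hS => (mem_filter.1 hS).2)
    have h2 : #FB ≤ 2 ^ ((K ^ 4 + K + m) * (n + (1 + u * s + s'))) :=
      (card_filter_le _ _).trans (card_image_le.trans (card_fam_le _ _ n hn))
    exact cancel_pow _ _ _ _ 3 (h1.trans (Nat.mul_le_mul_right _ h2)) (by omega)
  have hC : ∀ l ∈ Ioc (K * k) (k * k),
      #(bad ((sets G k l).image fun X => X + X)) * 2 ^ (9 * k) ≤ 2 ^ Fintype.card G := by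
    intro l hl
    obtain ⟨E, hE, hE'⟩ := card_sets_le (G := G) n m k l J K hn (by omega) hJ hkJ hJm hK
      (mem_Ioc.1 hl).1 hnm'
    have h1 := card_bad_le ((sets G k l).image fun X => X + X) l (by
      intro S hS
      obtain ⟨X, hX, rfl⟩ := mem_image.1 hS
      simp only [sets, mem_filter, mem_univ, true_and] at hX
      exact hX.2.2.ge)
    exact cancel_pow _ _ _ E _ (h1.trans (Nat.mul_le_mul_right _ (card_image_le.trans hE))) hE'
  have hC' : #((Ioc (K * k) (k * k)).biUnion
      fun l => bad ((sets G k l).image fun X => X + X)) * 2 ^ 3 ≤ 2 ^ Fintype.card G := by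
    have h1 : #((Ioc (K * k) (k * k)).biUnion
        fun l => bad ((sets G k l).image fun X => X + X)) * 2 ^ (9 * k) ≤
        k * k * 2 ^ Fintype.card G := by
      refine (Nat.mul_le_mul_right _ card_biUnion_le).trans ?_
      rw [sum_mul]
      refine (sum_le_card_nsmul _ _ _ hC).trans ?_
      rw [smul_eq_mul, Nat.card_Ioc]
      exact Nat.mul_le_mul_right _ (Nat.sub_le _ _)
    have h2 : k * k * 2 ^ 3 ≤ 2 ^ (9 * k) := by
      have h3 : k ≤ 2 ^ k := Nat.lt_two_pow_self.le
      calc k * k * 2 ^ 3 ≤ 2 ^ k * 2 ^ k * 2 ^ (7 * k) :=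
            Nat.mul_le_mul (Nat.mul_le_mul h3 h3) (Nat.pow_le_pow_right (by norm_num) (by omega))
        _ = 2 ^ (9 * k) := by rw [← pow_add, ← pow_add]; congr 1; omega
    set x := #((Ioc (K * k) (k * k)).biUnion fun l => bad ((sets G k l).image fun X => X + X))
    have h3 : x * 2 ^ 3 * (k * k) ≤ 2 ^ Fintype.card G * (k * k) := by
      calc x * 2 ^ 3 * (k * k) = x * (k * k * 2 ^ 3) := by ring
        _ ≤ x * 2 ^ (9 * k) := Nat.mul_le_mul_left _ h2
        _ ≤ k * k * 2 ^ Fintype.card G := h1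
        _ = 2 ^ Fintype.card G * (k * k) := by ring
    exact Nat.le_of_mul_le_mul_right h3 (by positivity)
  have h1 := (card_le_card hsub).trans ((card_union_le _ _).trans
    (Nat.add_le_add_right (card_union_le _ _) _))
  omega

end Pool.Agent.H883Z.Cay
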