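import Pool.Agent.H883Z.CayBasic

set_option autoImplicit false

namespace Pool.Agent.H883Z.Cay

open Finset Pointwise Module

variable {G : Type} [AddCommGroup G] [Module (ZMod 2) G] [DecidableEq G]
variable {ι : Type} [Fintype ι] [DecidableEq ι]

/-- number of directions leading from `x` into `Q` -/
def deg (v : ι → G) (Q : Finset G) (x : G) : ℕ := #(univ.filter fun i => x + v i ∈ Q)

omit [DecidableEq ι] in
lemma edges_symm (v : ι → G) (P Q : Finset G) :
    ∑ x ∈ P, deg v Q x = ∑ s ∈ Q, deg v P s := by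
  simp only [deg, card_filter]
  rw [sum_comm, sum_comm (s := Q)]
  apply sum_congr rfl
  intro i _
  rw [← card_filter, ← card_filter]
  apply card_bij (fun x _ => x + v i)
  · intro x hx
    simp only [mem_filter] at hx ⊢
    exact ⟨hx.2, by rw [add_add_self]; exact hx.1⟩
  · intro x _ y _ h
    exact add_right_cancel h
  · intro s hs
    simp only [mem_filter] at hs
    exact ⟨s + v i, by simp only [mem_filter]; exact ⟨hs.2, by rw [add_add_self]; exact hs.1⟩,
      add_add_self _ _⟩

omit [DecidableEq ι] in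
lemma exists_core (v : ι → G) (X : Finset G) (hX : X.Nonempty) (hvX : ∀ i, v i ∈ X) (D : ℕ)
    (hr : 0 < Fintype.card ι) (h1 : D * #(X + X) ≤ Fintype.card ι * #X) :
    ∃ P Q : Finset G, P ⊆ X ∧ P.Nonempty ∧ (∀ x ∈ P, Fintype.card ι ≤ 4 * deg v Q x) ∧
      ∀ s ∈ Q, D ≤ 4 * deg v P s := by
  set r := Fintype.card ι with hrdef
  let Φ : Finset G × Finset G → ℤ := fun p =>
    4 * ((∑ x ∈ p.1, deg v p.2 x : ℕ) : ℤ) - r * #p.1 - D * #p.2
  obtain ⟨⟨P, Q⟩, hPQ, hmax⟩ := exists_max_image (X.powerset ×ˢ (X + X).powerset) Φ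
    ⟨(X, X + X), by simp⟩
  simp only [mem_product, mem_powerset] at hPQ
  have h0 := hmax (X, X + X) (by simp)
  have hfull : ∑ x ∈ X, deg v (X + X) x = r * #X := by
    rw [sum_congr rfl (g := fun _ => r)]
    · simp [mul_comm]
    · intro x hx
      simp only [deg]
      rw [filter_true_of_mem (fun i _ => add_mem_add hx (hvX i)), card_univ]
  have hk : 0 < #X := hX.card_pos
  have hpos : 0 < Φ (P, Q) := by
    refine lt_of_lt_of_le ?_ h0
    simp only [Φ, hfull]
    have h1' : ((D * #(X + X) : ℕ) : ℤ) ≤ ((r * #X : ℕ) : ℤ) := by exact_mod_cast h1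
    have h2 : (0 : ℤ) < ((r * #X : ℕ) : ℤ) := by exact_mod_cast Nat.mul_pos hr hk
    push_cast at h1' h2 ⊢
    linarith
  refine ⟨P, Q, hPQ.1, ?_, ?_, ?_⟩
  · rw [nonempty_iff_ne_empty]
    rintro rfl
    simp only [Φ, sum_empty, card_empty] at hpos
    have : (0 : ℤ) ≤ D * #Q := by positivity
    push_cast at hpos
    linarith
  · intro x hx
    have h2 := hmax (P.erase x, Q) (by
      simp only [mem_product, mem_powerset]
      exact ⟨(erase_subset _ _).trans hPQ.1, hPQ.2⟩)
    simp only [Φ] at h2
    have h3 := add_sum_erase P (deg v Q) hx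
    have h4 := card_erase_add_one hx
    rw [← h3, ← h4] at h2
    push_cast at h2
    have : (r : ℤ) ≤ 4 * deg v Q x := by linarith
    exact_mod_cast this
  · intro s hs
    have h2 := hmax (P, Q.erase s) (by
      simp only [mem_product, mem_powerset]
      exact ⟨hPQ.1, (erase_subset _ _).trans hPQ.2⟩)
    simp only [Φ] at h2
    rw [edges_symm v P Q, edges_symm v P (Q.erase s)] at h2
    have h3 := add_sum_erase Q (deg v P) hs
    have h4 := card_erase_add_one hs
    rw [← h3, ← h4] at h2
    push_cast at h2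
    have : (D : ℤ) ≤ 4 * deg v P s := by linarith
    exact_mod_cast this

/-- index sets of size `i` whose sum moves `x` into `P` -/
def lev (v : ι → G) (x : G) (P : Finset G) (i : ℕ) : Finset (Finset ι) :=
  (powersetCard i univ).filter fun T => x + ∑ j ∈ T, v j ∈ P

omit [Module (ZMod 2) G] in
lemma lev_step (v : ι → G) (x : G) (P Q : Finset G) (i D : ℕ) (h : ∀ p ∈ P, D ≤ deg v Q p) :
    #(lev v x P i) * (D - i) ≤ #(lev v x Q (i + 1)) * (i + 1) := by
  apply card_mul_le_card_mul (fun T T' : Finset ι => T ⊆ T')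
  · intro T hT
    simp only [lev, mem_filter, mem_powersetCard, subset_univ, true_and] at hT
    have h1 := h _ hT.2
    have h2 : D - i ≤ #((univ.filter fun j => x + ∑ j ∈ T, v j + v j ∈ Q) \ T) := by
      have := le_card_sdiff T (univ.filter fun j => x + ∑ j ∈ T, v j + v j ∈ Q)
      simp only [deg] at h1
      omega
    refine h2.trans ?_
    apply card_le_card_of_injOn (fun j => insert j T)
    · intro j hj
      simp only [coe_sdiff, coe_filter, mem_univ, true_and, Set.mem_sdiff, Set.mem_ofPred_eq,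
        mem_coe] at hj
      simp only [bipartiteAbove, lev, coe_filter, mem_filter, mem_powersetCard, subset_univ,
        true_and, Set.mem_ofPred_eq]
      refine ⟨⟨by rw [card_insert_of_notMem hj.2, hT.1], ?_⟩, subset_insert _ _⟩
      rw [sum_insert hj.2, add_comm (v j), ← add_assoc]
      exact hj.1
    · intro j hj j' _ hjj
      simp only [coe_sdiff, Set.mem_sdiff, mem_coe] at hj
      have : j ∈ insert j' T := by
        have e : insert j T = insert j' T := hjj
        rw [← e]
        exact mem_insert_self _ _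
      rcases mem_insert.1 this with h | h
      · exact h
      · exact absurd h hj.2
  · intro T' hT'
    simp only [lev, mem_filter, mem_powersetCard, subset_univ, true_and] at hT'
    have : bipartiteBelow (fun T T' : Finset ι => T ⊆ T') (lev v x P i) T' ⊆
        powersetCard i T' := by
      intro T hT
      simp only [bipartiteBelow, lev, mem_filter, mem_powersetCard] at hT ⊢
      exact ⟨hT.2, hT.1.1.2⟩
    refine (card_le_card this).trans ?_
    rw [card_powersetCard, hT'.1, Nat.choose_succ_self_right]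

omit [DecidableEq G] in
lemma sum_inj (v : ι → G) (hv : LinearIndependent (ZMod 2) v) (T T' : Finset ι)
    (h : ∑ j ∈ T, v j = ∑ j ∈ T', v j) : T = T' := by
  have e : ∀ S : Finset ι, ∑ j ∈ S, v j = ∑ j, (if j ∈ S then (1 : ZMod 2) else 0) • v j := by
    intro S
    simp [ite_smul]
  rw [e, e] at h
  have h2 := Fintype.linearIndependent_iffₛ.1 hv _ _ h
  ext j
  have h3 := h2 j
  by_cases a : j ∈ T <;> by_cases b : j ∈ T'
  · exact ⟨fun _ => b, fun _ => a⟩
  · rw [if_pos a, if_neg b] at h3
    exact absurd h3 (by decide)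
  · rw [if_neg a, if_pos b] at h3
    exact absurd h3 (by decide)
  · exact ⟨fun c => absurd c a, fun c => absurd c b⟩

lemma walk_bound (v : ι → G) (hv : LinearIndependent (ZMod 2) v) (X : Finset G)
    (hX : X.Nonempty) (hvX : ∀ i, v i ∈ X) (J Λ : ℕ) (hJ : 1 ≤ J)
    (h1 : 16 * J * #(X + X) ≤ Fintype.card ι * #X)
    (h2 : 8 * (Λ + 1) * J ≤ Fintype.card ι) : Λ ^ J ≤ #X := by
  have hr : 0 < Fintype.card ι := lt_of_lt_of_le (by positivity) h2
  obtain ⟨P, Q, hPX, ⟨x, hx⟩, hP, hQ⟩ := exists_core v X hX hvX (16 * J) hr h1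
  have hP' : ∀ p ∈ P, 2 * (Λ + 1) * J ≤ deg v Q p := by
    intro p hp
    have := hP p hp
    nlinarith
  have hQ' : ∀ s ∈ Q, 4 * J ≤ deg v P s := by
    intro s hs
    have := hQ s hs
    omega
  have key : ∀ j, j ≤ J → Λ ^ j ≤ #(lev v x P (2 * j)) := by
    intro j
    induction j with
    | zero =>
      intro _
      simp only [pow_zero, mul_zero]
      apply card_pos.2
      exact ⟨∅, by simp [lev, hx]⟩
    | succ j ih =>
      intro hj
      have h3 := ih (by omega)
      have h4 := lev_step v x P Q (2 * j) _ hP'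
      have h5 := lev_step v x Q P (2 * j + 1) _ hQ'
      have e : 2 * (j + 1) = 2 * j + 1 + 1 := by ring
      rw [e]
      set A := #(lev v x P (2 * j))
      set B := #(lev v x Q (2 * j + 1))
      set C := #(lev v x P (2 * j + 1 + 1))
      have h6 : Λ * (2 * J) ≤ 2 * (Λ + 1) * J - 2 * j := by
        have : 2 * (Λ + 1) * J = Λ * (2 * J) + 2 * J := by ring
        omega
      have h7 : A * Λ ≤ B := by
        have h8 : A * Λ * (2 * J) ≤ B * (2 * J) := by
          calc A * Λ * (2 * J) = A * (Λ * (2 * J)) := by ring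
            _ ≤ A * (2 * (Λ + 1) * J - 2 * j) := Nat.mul_le_mul_left _ h6
            _ ≤ B * (2 * j + 1) := h4
            _ ≤ B * (2 * J) := Nat.mul_le_mul_left _ (by omega)
        exact Nat.le_of_mul_le_mul_right h8 (by omega)
      have h9 : B ≤ C := by
        have h8 : B * (2 * J) ≤ C * (2 * J) := by
          calc B * (2 * J) ≤ B * (4 * J - (2 * j + 1)) := Nat.mul_le_mul_left _ (by omega)
            _ ≤ C * (2 * j + 1 + 1) := h5
            _ ≤ C * (2 * J) := Nat.mul_le_mul_left _ (by omega)
        exact Nat.le_of_mul_le_mul_right h8 (by omega)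
      calc Λ ^ (j + 1) = Λ ^ j * Λ := pow_succ _ _
        _ ≤ A * Λ := Nat.mul_le_mul_right _ h3
        _ ≤ C := h7.trans h9
  refine (key J le_rfl).trans (le_trans ?_ (card_le_card hPX))
  apply card_le_card_of_injOn (fun T => x + ∑ j ∈ T, v j)
  · intro T hT
    simp only [lev, coe_filter, Set.mem_ofPred_eq] at hT
    exact hT.2
  · intro T _ T' _ h
    exact sum_inj v hv T T' (add_left_cancel h)

/-- a set with `|X| < Λ ^ J` has small rank compared with its doubling -/
lemma rank_bound (X : Finset G) (hX : X.Nonempty) (J Λ : ℕ) (hJ : 1 ≤ J) (hk : #X < Λ ^ J) :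
    finrank (ZMod 2) (Submodule.span (ZMod 2) (X : Set G)) * #X < 16 * J * #(X + X) ∨
      finrank (ZMod 2) (Submodule.span (ZMod 2) (X : Set G)) < 8 * (Λ + 1) * J := by
  classical
  by_contra hcon
  push Not at hcon
  obtain ⟨b, hb, hspan, hli⟩ := exists_linearIndependent (ZMod 2) (X : Set G)
  have hfin : b.Finite := X.finite_toSet.subset hb
  have : Fintype b := hfin.fintype
  have hcard : finrank (ZMod 2) (Submodule.span (ZMod 2) (X : Set G)) = Fintype.card b := by
    rw [← hspan, ← finrank_span_eq_card hli, Subtype.range_coe]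
  rw [hcard] at hcon
  have := walk_bound (ι := b) (fun i => (i : G)) hli X hX (fun i => hb i.2) J Λ hJ hcon.1 hcon.2
  omega

end Pool.Agent.H883Z.Cay
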